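import Pool.Agent.P.MP_f04817_lc.Co.Iface

/-! One chain of coarse equations holds for few choices. -/

set_option autoImplicit false

namespace Pool.Agent.P.MP_f04817_lc.Co

open scoped Classical

namespace BAD

variable {G : Type} [Group G]

theorem thin_mul {X : Set G} (h : Thin X) (c d e : G) : Thin {g | e * (c * g * d) ∈ X} := by
  obtain ⟨K, a, b, hK, hX⟩ := h
  refine ⟨K, a * e * c, d * b, hK, fun g hg => ?_⟩
  have := hX _ hg
  simpa only [mul_assoc] using this

theorem thin_inv {X : Set G} (h : Thin X) (c d e : G) : Thin {g | (c * g * d)⁻¹ * e ∈ X} := by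
  obtain ⟨K, a, b, hK, hX⟩ := h
  refine ⟨K, b⁻¹ * e⁻¹ * c, d * a⁻¹, hK, fun g hg => ?_⟩
  have := K.inv_mem (hX _ hg)
  simpa only [mul_assoc, mul_inv_rev, inv_inv] using this

theorem t1 {k : ℕ} (D : Rels G k) {c : D.C} {j : Fin k} (hB : D.Bg c j) (η : Fin k → G × G)
    (y : G) : Thin {x | D.Rel c (Function.update η j (x, y))} := by
  have := D.thin1 c j (Function.update η j (1, y)) hB
  simpa only [Function.update_idem, Function.update_self] using this

theorem t2 {k : ℕ} (D : Rels G k) {c : D.C} {j : Fin k} (hP : D.Pm c j) (η : Fin k → G × G)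
    (y : G) : Thin {x | D.Rel c (Function.update η j (y, x))} := by
  have := D.thin2 c j (Function.update η j (y, 1)) hP
  simpa only [Function.update_idem, Function.update_self] using this

theorem secL {k : ℕ} (D : Rels G k) {c : D.C} {j : Fin k} (hB : D.Bg c j) (η : Fin k → G × G)
    (A e o : G) (i : G × G) :
    Thin {g | D.Rel c (Function.update η j (eta (D.Pm c j) (A * g * e, o) i))} := by
  unfold eta
  by_cases hP : D.Pm c j
  · simp only [if_pos hP]
    exact thin_inv (t1 D hB η (o⁻¹ * i.2)) A e i.1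
  · simp only [if_neg hP]
    exact thin_inv (t1 D hB η (i.1⁻¹ * i.2)) A e o

theorem secR {k : ℕ} (D : Rels G k) {c : D.C} {j : Fin k} (hB : D.Bg c j) (η : Fin k → G × G)
    (A e o : G) (i : G × G) :
    Thin {g | D.Rel c (Function.update η j (eta (D.Pm c j) (o, A * g * e) i))} := by
  unfold eta
  by_cases hP : D.Pm c j
  · simp only [if_pos hP]
    exact thin_inv (t2 D hP η (o⁻¹ * i.1)) A e i.2
  · simp only [if_neg hP]
    exact thin_mul (t1 D hB η (i.1⁻¹ * i.2)) A e o⁻¹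

variable {M R : ℕ → ℕ} {h l m : ℕ} {γ : ℕ → G} {r : ℕ × ℕ → ℕ}

theorem ze_off (P : Par M R h l m) {δ p : ℕ} (hp : 1 ≤ p) {q : Ent G}
    (hq : Fr2 (M δ) (2 * h) p q) (v : ℕ) :
    ze (ZZ γ M h l m (Function.update r (δ, p) v)) q = ze (ZZ γ M h l m r) q := by
  unfold ze
  rw [P.free hp hq.1, P.free hp hq.2]

theorem mem_Om2 {Mk : ℕ → Finset ℕ} {n : ℕ} : r ∈ Om2 R Mk m n ↔ r ∈ Om R m n ∧
    ∀ q ∈ Finset.range (m + 1) ×ˢ Finset.range (n + 1), r q ∈ Mk q.1 := Finset.mem_filter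

end BAD

open BAD in
theorem p_BAD (h : S_CNT) : S_BAD := by
  intro G _ k b D M R hh l m δ n Q γ Mk σ P hδ hMk hne hQ hσ
  have hmem : ∀ i, (δ, (σ i).1) ∈ Finset.range (m + 1) ×ˢ Finset.range (n + 1) := fun i =>
    Finset.mem_product.mpr ⟨Finset.mem_range.mpr (Nat.lt_succ_of_le hδ),
      Finset.mem_range.mpr (Nat.lt_succ_of_le (hσ.1 i).2.1)⟩
  have key := h (ℕ × ℕ) (Om2 R Mk m n) (Mk δ) Q b (fun i => (δ, (σ i).1))
    (fun i r => Eqn D (ZZ γ M hh l m r) (σ i)) hne (fun i r hr v hv => ?_)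
    (fun i r hr => (mem_Om2.mp hr).2 _ (hmem i)) (fun i r hr => ?_) (fun i i' hii r v e => ?_)
  · convert key
  · obtain ⟨r0, r3⟩ := mem_Om2.mp hr
    obtain ⟨r1, r2⟩ := mem_Om.mp r0
    refine mem_Om2.mpr ⟨mem_Om.mpr ⟨fun q => ?_, fun q hq => ?_⟩, fun q hq => ?_⟩
    · rcases eq_or_ne q (δ, (σ i).1) with rfl | hq
      · rw [Function.update_self]
        exact hMk δ v hv
      · rw [Function.update_of_ne hq]
        exact r1 q
    · rw [Function.update_of_ne, r2 q hq]
      rintro rfl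
      exact hq (hmem i)
    · rcases eq_or_ne q (δ, (σ i).1) with rfl | hq'
      · rw [Function.update_self]
        exact hv
      · rw [Function.update_of_ne hq']
        exact r3 q hq
  · obtain ⟨p1, _, hi, j, hB, hj, ho⟩ := hσ.1 i
    obtain ⟨A, e, hA⟩ := P.ref (γ := γ) (mem_Om.mp (mem_Om2.mp hr).1).1 hδ (σ i).1
    let η : Fin k → G × G := fun j' => eta (D.Pm (σ i).2.1 j')
      (ze (ZZ γ M hh l m r) ((σ i).2.2 j').1) (ze (ZZ γ M hh l m r) ((σ i).2.2 j').2)
    have hη : ∀ v, (fun j' => eta (D.Pm (σ i).2.1 j')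
        (ze (ZZ γ M hh l m (Function.update r (δ, (σ i).1) v)) ((σ i).2.2 j').1)
        (ze (ZZ γ M hh l m (Function.update r (δ, (σ i).1) v)) ((σ i).2.2 j').2)) =
        Function.update η j (eta (D.Pm (σ i).2.1 j)
          (ze (ZZ γ M hh l m (Function.update r (δ, (σ i).1) v)) ((σ i).2.2 j).1)
          (ze (ZZ γ M hh l m r) ((σ i).2.2 j).2)) := fun v => by
      funext j'
      rcases eq_or_ne j' j with rfl | hj'
      · rw [Function.update_self, ze_off P p1 (hi j') v]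
      · rw [Function.update_of_ne hj', ze_off P p1 (hi j') v, ze_off P p1 (ho j' hj') v]
    rcases hj with ⟨a, c⟩ | ⟨a, c⟩
    · refine le_trans (Nat.mul_le_mul_left _ (Finset.card_le_card fun v hv => ?_))
        (hQ _ (secL D hB η A (e * ((σ i).2.2 j).1.2.2.1)
          (ZZ γ M hh l m r ((σ i).2.2 j).1.2.1 * ((σ i).2.2 j).1.2.2.2)
          (ze (ZZ γ M hh l m r) ((σ i).2.2 j).2)))
      obtain ⟨v1, v2⟩ := Finset.mem_filter.mp hv
      refine Finset.mem_filter.mpr ⟨v1, ?_⟩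
      unfold Eqn at v2
      rw [hη v] at v2
      have e1 : ze (ZZ γ M hh l m (Function.update r (δ, (σ i).1) v)) ((σ i).2.2 j).1 =
          (A * γ v * (e * ((σ i).2.2 j).1.2.2.1),
            ZZ γ M hh l m r ((σ i).2.2 j).1.2.1 * ((σ i).2.2 j).1.2.2.2) := by
        unfold ze
        rw [P.free p1 c, a, hA v (hMk δ v v1), mul_assoc]
      rw [e1] at v2
      exact v2
    · refine le_trans (Nat.mul_le_mul_left _ (Finset.card_le_card fun v hv => ?_))
        (hQ _ (secR D hB η A (e * ((σ i).2.2 j).1.2.2.2)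
          (ZZ γ M hh l m r ((σ i).2.2 j).1.1 * ((σ i).2.2 j).1.2.2.1)
          (ze (ZZ γ M hh l m r) ((σ i).2.2 j).2)))
      obtain ⟨v1, v2⟩ := Finset.mem_filter.mp hv
      refine Finset.mem_filter.mpr ⟨v1, ?_⟩
      unfold Eqn at v2
      rw [hη v] at v2
      have e1 : ze (ZZ γ M hh l m (Function.update r (δ, (σ i).1) v)) ((σ i).2.2 j).1 =
          (ZZ γ M hh l m r ((σ i).2.2 j).1.1 * ((σ i).2.2 j).1.2.2.1,
            A * γ v * (e * ((σ i).2.2 j).1.2.2.2)) := by
        unfold ze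
        rw [P.free p1 a, c, hA v (hMk δ v v1), mul_assoc (A * γ v)]
      rw [e1] at v2
      exact v2
  · unfold Eqn at e ⊢
    have : (fun j => eta (D.Pm (σ i).2.1 j)
        (ze (ZZ γ M hh l m (Function.update r (δ, (σ i').1) v)) ((σ i).2.2 j).1)
        (ze (ZZ γ M hh l m (Function.update r (δ, (σ i').1) v)) ((σ i).2.2 j).2)) =
        fun j => eta (D.Pm (σ i).2.1 j) (ze (ZZ γ M hh l m r) ((σ i).2.2 j).1)
          (ze (ZZ γ M hh l m r) ((σ i).2.2 j).2) := funext fun j => by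
      rw [ze_off P (hσ.1 i').1 (hσ.2 i i' hii j).1 v, ze_off P (hσ.1 i').1 (hσ.2 i i' hii j).2 v]
    rw [this]
    exact e

end Pool.Agent.P.MP_f04817_lc.Co
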