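import Pool.Agent.P.MP_f04817_lc.Co.Iface

/-! Monotone chains of unions of few convex sets are few. -/

set_option autoImplicit false

namespace Pool.Agent.P.MP_f04817_lc.Co

open scoped Classical

namespace CHAIN

/-- an enumeration of a finite set by a monotone sequence -/
theorem enum (N : Finset ℕ) : ∃ (x idx : ℕ → ℕ), Monotone x ∧
    ∀ y ∈ N, idx y < N.card ∧ x (idx y) = y := by
  have hinf : {y | y ∈ N ∨ N.sup id < y}.Infinite := by
    refine (Set.Ioi_infinite (N.sup id)).mono ?_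
    intro y hy
    exact Or.inr hy
  refine ⟨Nat.nth fun y => y ∈ N ∨ N.sup id < y, Nat.count fun y => y ∈ N ∨ N.sup id < y,
    Nat.nth_monotone hinf, fun y hy => ⟨?_, Nat.nth_count (Or.inl hy)⟩⟩
  rw [Nat.count_eq_card_filter_range]
  refine lt_of_le_of_lt (Finset.card_le_card (t := N.erase y) ?_) (Finset.card_erase_lt_of_mem hy)
  intro w hw
  rw [Finset.mem_filter, Finset.mem_range] at hw
  have hle : y ≤ N.sup id := Finset.le_sup (f := id) hy
  rw [Finset.mem_erase]
  refine ⟨by omega, ?_⟩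
  rcases hw.2 with h | h
  · exact h
  · omega

theorem first {β : ℕ} (Q : Fin β → Prop) (hQ : ∀ i i', i ≤ i' → Q i → Q i') (i : Fin β)
    (T : Finset (Fin β)) (hT : ∀ a, a ∈ T ↔ ¬ Q a) : T.card ≤ i ↔ Q i := by
  constructor
  · intro h
    by_contra hc
    have : Finset.Iic i ⊆ T := by
      intro a ha
      rw [Finset.mem_Iic] at ha
      exact (hT a).2 fun h' => hc (hQ a i ha h')
    have h2 := Finset.card_le_card this
    rw [Fin.card_Iic] at h2
    omega
  · intro h
    have : T ⊆ Finset.Iio i := by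
      intro a ha
      rw [Finset.mem_Iio]
      by_contra hc
      exact (hT a).1 ha (hQ i a (not_lt.1 hc) h)
    have h2 := Finset.card_le_card this
    rwa [Fin.card_Iio] at h2

theorem half {β : ℕ} (Q Q' : Fin β → Prop) :
    (Finset.univ.filter fun i => ¬ Q i).card ≤ (Finset.univ.filter fun i => ¬ Q' i).card +
      (Finset.univ.filter fun i => ¬ Q i ∧ Q' i).card := by
  refine le_trans (Finset.card_le_card ?_) (Finset.card_union_le _ _)
  intro a ha
  simp only [Finset.mem_filter, Finset.mem_union, Finset.mem_univ, true_and] at ha ⊢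
  by_cases h : Q' a
  · exact Or.inr ⟨ha, h⟩
  · exact Or.inl h

theorem dist_le {β : ℕ} (Q Q' : Fin β → Prop) :
    Nat.dist (Finset.univ.filter fun i => ¬ Q i).card (Finset.univ.filter fun i => ¬ Q' i).card ≤
      (Finset.univ.filter fun i => ¬ Q i ∧ Q' i).card +
        (Finset.univ.filter fun i => ¬ Q' i ∧ Q i).card := by
  have h1 := half Q Q'
  have h2 := half Q' Q
  unfold Nat.dist
  omega

theorem entry {k : ℕ} (M : ℕ) (R : Fin k → ℕ → Prop)
    (hR : ∀ j x y w, x ≤ y → y ≤ w → R j x → R j w → R j y) :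
    ((Finset.range M).filter fun s => (¬ ∃ j, R j s) ∧ ∃ j, R j (s + 1)).card ≤ k := by
  have hsub : ((Finset.range M).filter fun s => (¬ ∃ j, R j s) ∧ ∃ j, R j (s + 1)) ⊆
      Finset.univ.biUnion fun j : Fin k =>
        (Finset.range M).filter fun s => ¬ R j s ∧ R j (s + 1) := by
    intro s hs
    rw [Finset.mem_filter] at hs
    obtain ⟨h0, h1, j, hj⟩ := hs
    rw [Finset.mem_biUnion]
    exact ⟨j, Finset.mem_univ _, Finset.mem_filter.2 ⟨h0, fun h => h1 ⟨j, h⟩, hj⟩⟩
  refine le_trans (Finset.card_le_card hsub) ?_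
  refine le_trans (Finset.card_biUnion_le_card_mul _ _ 1 ?_) (by simp)
  intro j _
  rw [Finset.card_le_one]
  intro a ha b hb
  rw [Finset.mem_filter] at ha hb
  by_contra hne
  rcases lt_or_gt_of_ne hne with h | h
  · exact hb.2.1 (hR j (a + 1) b (b + 1) h (Nat.le_succ b) ha.2.2 hb.2.2)
  · exact ha.2.1 (hR j (b + 1) a (a + 1) h (Nat.le_succ a) hb.2.2 ha.2.2)

theorem exit {k : ℕ} (M : ℕ) (R : Fin k → ℕ → Prop)
    (hR : ∀ j x y w, x ≤ y → y ≤ w → R j x → R j w → R j y) :
    ((Finset.range M).filter fun s => (¬ ∃ j, R j (s + 1)) ∧ ∃ j, R j s).card ≤ k := by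
  have hsub : ((Finset.range M).filter fun s => (¬ ∃ j, R j (s + 1)) ∧ ∃ j, R j s) ⊆
      Finset.univ.biUnion fun j : Fin k =>
        (Finset.range M).filter fun s => ¬ R j (s + 1) ∧ R j s := by
    intro s hs
    rw [Finset.mem_filter] at hs
    obtain ⟨h0, h1, j, hj⟩ := hs
    rw [Finset.mem_biUnion]
    exact ⟨j, Finset.mem_univ _, Finset.mem_filter.2 ⟨h0, fun h => h1 ⟨j, h⟩, hj⟩⟩
  refine le_trans (Finset.card_le_card hsub) ?_
  refine le_trans (Finset.card_biUnion_le_card_mul _ _ 1 ?_) (by simp)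
  intro j _
  rw [Finset.card_le_one]
  intro a ha b hb
  rw [Finset.mem_filter] at ha hb
  by_contra hne
  rcases lt_or_gt_of_ne hne with h | h
  · exact ha.2.1 (hR j a (a + 1) b (Nat.le_succ a) h ha.2.2 hb.2.2)
  · exact hb.2.1 (hR j b (b + 1) a (Nat.le_succ b) h hb.2.2 ha.2.2)

theorem swap {β : ℕ} (M k : ℕ) (A : Fin β → ℕ → Prop)
    (h : ∀ i, ((Finset.range M).filter fun s => A i s).card ≤ k) :
    ∑ s ∈ Finset.range M, (Finset.univ.filter fun i => A i s).card ≤ k * β := by
  simp only [Finset.card_filter] at h ⊢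
  rw [Finset.sum_comm]
  refine le_trans (Finset.sum_le_sum fun i _ => h i) ?_
  simp [mul_comm]

end CHAIN

theorem p_CHAIN (h : S_LIP) : S_CHAIN := by
  intro N k β
  obtain ⟨x, idx, hx, hidx⟩ := CHAIN.enum N
  obtain ⟨F, hF, hcov⟩ := h N.card ((2 * k + 1) * β)
  refine ⟨F.image fun (σ : ℕ → ℕ) (i : Fin β) => N.filter fun y => σ (idx y) ≤ (i : ℕ),
    le_trans Finset.card_image_le hF, ?_⟩
  intro P hconv hmono
  have hR : ∀ i j a b c, a ≤ b → b ≤ c → P i j (x a) → P i j (x c) → P i j (x b) :=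
    fun i j a b c h1 h2 => hconv i j _ _ _ (hx h1) (hx h2)
  obtain ⟨σ, hσ, hστ⟩ := hcov
    (fun s => (Finset.univ.filter fun i : Fin β => ¬ ∃ j, P i j (x s)).card) (by
      have h0 : (Finset.univ.filter fun i : Fin β => ¬ ∃ j, P i j (x 0)).card ≤ β :=
        le_trans (Finset.card_filter_le _ _) (by simp)
      have h1 := CHAIN.swap N.card k
        (fun i s => (¬ ∃ j, P i j (x s)) ∧ ∃ j, P i j (x (s + 1)))
        (fun i => by simpa using CHAIN.entry N.card (fun j s => P i j (x s)) (hR i))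
      have h2 := CHAIN.swap N.card k
        (fun i s => (¬ ∃ j, P i j (x (s + 1))) ∧ ∃ j, P i j (x s))
        (fun i => by simpa using CHAIN.exit N.card (fun j s => P i j (x s)) (hR i))
      have h3 := Finset.sum_le_sum (s := Finset.range N.card) fun s _ =>
        CHAIN.dist_le (fun i : Fin β => ∃ j, P i j (x s)) (fun i => ∃ j, P i j (x (s + 1)))
      rw [Finset.sum_add_distrib] at h3
      have h4 : (2 * k + 1) * β = k * β + k * β + β := by ring
      simp only [not_exists] at h0 h1 h2 h3 ⊢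
      omega)
  rw [Finset.mem_image]
  refine ⟨σ, hσ, ?_⟩
  funext i
  refine Finset.filter_congr fun y hy => ?_
  rw [hστ _ (hidx y hy).1, (hidx y hy).2]
  exact CHAIN.first (fun i => ∃ j, P i j y)
    (fun a b hab ⟨j, hj⟩ => hmono a b hab j y hj) i _
    (fun a => by simp only [Finset.mem_filter, Finset.mem_univ, true_and])

end Pool.Agent.P.MP_f04817_lc.Co
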