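import Pool.Agent.P.MP_f04817_lc.Co.Iface

/-! The counting step. -/

set_option autoImplicit false

namespace Pool.Agent.P.MP_f04817_lc.Co

open scoped Classical

theorem p_CNT : S_CNT := by
  intro ι _ Ω U Q β p A hU hΩ hr hQ ind
  have key : ∀ s ≤ β,
      (Ω.filter fun r => ∀ i : Fin β, i.val < s → A i r).card * Q ^ s ≤ Ω.card := by
    intro s
    induction s with
    | zero => exact fun _ => by simp
    | succ s ih =>
      intro hs
      refine le_trans ?_ (ih (by omega))
      rw [pow_succ', ← mul_assoc]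
      refine Nat.mul_le_mul_right _ (Nat.le_of_mul_le_mul_right ?_ hU.card_pos)
      have h1 : (Ω.filter fun r => ∀ i : Fin β, i.val < s + 1 → A i r).card * U.card ≤
          ∑ r ∈ Ω.filter (fun r => ∀ i : Fin β, i.val < s → A i r),
            (U.filter fun v => A ⟨s, hs⟩ (Function.update r (p ⟨s, hs⟩) v)).card := by
        rw [← Finset.card_product, ← Finset.card_sigma]
        refine Finset.card_le_card_of_injOn
          (fun q => ⟨Function.update q.1 (p ⟨s, hs⟩) q.2, q.1 (p ⟨s, hs⟩)⟩)
          (fun q hq => ?_) (fun q hq q' hq' e => ?_)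
        · obtain ⟨q1, q2⟩ := Finset.mem_product.mp hq
          obtain ⟨q3, q4⟩ := Finset.mem_filter.mp q1
          refine Finset.mem_coe.mpr (Finset.mem_sigma.mpr ⟨Finset.mem_filter.mpr
            ⟨hΩ _ _ q3 _ q2, fun i hi => ind i ⟨s, hs⟩ hi _ _ (q4 i (by omega))⟩,
            Finset.mem_filter.mpr ⟨hr _ _ q3, ?_⟩⟩)
          simp only [Function.update_idem, Function.update_eq_self]
          exact q4 _ (Nat.lt_succ_self s)
        · obtain ⟨e1, e2⟩ := Sigma.mk.inj e
          have e3 : q.1 (p ⟨s, hs⟩) = q'.1 (p ⟨s, hs⟩) := eq_of_heq e2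
          refine Prod.ext ?_ (by simpa using congrFun e1 (p ⟨s, hs⟩))
          have e4 := congrArg (fun f => Function.update f (p ⟨s, hs⟩) (q.1 (p ⟨s, hs⟩))) e1
          simp only [Function.update_idem, Function.update_eq_self] at e4
          rw [e4, e3, Function.update_eq_self]
      rw [mul_right_comm, mul_comm _ Q]
      refine (Nat.mul_le_mul_left Q h1).trans ?_
      rw [Finset.mul_sum, ← smul_eq_mul]
      exact Finset.sum_le_card_nsmul _ _ _ fun r h => hQ _ r (Finset.mem_filter.mp h).1
  refine le_trans (Nat.mul_le_mul_right _ (Finset.card_le_card fun r hr' => ?_)) (key β le_rfl)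
  exact Finset.mem_filter.mpr ⟨(Finset.mem_filter.mp hr').1, fun i _ =>
    (Finset.mem_filter.mp hr').2 i⟩

end Pool.Agent.P.MP_f04817_lc.Co
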