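import Pool.Agent.P.MP_f04817_lc.Co.Iface

set_option autoImplicit false

namespace Pool.Agent.P.MP_f04817_lc.Co

open scoped Classical

namespace LIP

/-- the statement with a start value -/
def Ok (M V c : ℕ) : Prop :=
  ∃ F : Finset (ℕ → ℕ), F.card ≤ 3 ^ (M + V) ∧ ∀ τ : ℕ → ℕ,
    Nat.dist c (τ 0) + ∑ s ∈ Finset.range M, Nat.dist (τ s) (τ (s + 1)) ≤ V →
      ∃ σ ∈ F, ∀ s < M, σ s = τ s

theorem stay {M V c : ℕ} (h : Ok M V c) : ∃ F : Finset (ℕ → ℕ), F.card ≤ 3 ^ (M + V) ∧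
    ∀ τ : ℕ → ℕ, τ 0 = c → ∑ s ∈ Finset.range (M + 1), Nat.dist (τ s) (τ (s + 1)) ≤ V →
      ∃ σ ∈ F, ∀ s < M + 1, σ s = τ s := by
  obtain ⟨F, h1, h2⟩ := h
  refine ⟨F.image fun σ s => Nat.casesOn s c σ, Finset.card_image_le.trans h1, fun τ h0 hτ => ?_⟩
  rw [Finset.sum_range_succ', h0, add_comm] at hτ
  obtain ⟨σ, h3, h4⟩ := h2 (fun s => τ (s + 1)) hτ
  refine ⟨_, Finset.mem_image_of_mem _ h3, fun s hs => ?_⟩
  cases s with
  | zero => exact h0.symm
  | succ s => exact h4 s (by omega)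

theorem all (M : ℕ) : ∀ V c, Ok M V c := by
  induction M with
  | zero => exact fun V c => ⟨{fun _ => 0}, by simpa using Nat.one_le_pow _ _ (by norm_num),
      fun τ _ => ⟨_, Finset.mem_singleton_self _, fun s hs => absurd hs (by omega)⟩⟩
  | succ M ih =>
    intro V
    induction V with
    | zero =>
      intro c
      obtain ⟨F, h1, h2⟩ := stay (ih 0 c)
      refine ⟨F, h1.trans (Nat.pow_le_pow_right (by norm_num) (by omega)), fun τ hτ => h2 τ ?_ (by omega)⟩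
      exact (Nat.eq_of_dist_eq_zero (by omega)).symm
    | succ V ihV =>
      intro c
      obtain ⟨F, h1, h2⟩ := stay (ih (V + 1) c)
      obtain ⟨G, g1, g2⟩ := ihV (c + 1)
      obtain ⟨H, k1, k2⟩ := ihV (c - 1)
      refine ⟨F ∪ G ∪ H, ?_, fun τ hτ => ?_⟩
      · have a1 := Finset.card_union_le (F ∪ G) H
        have a2 := Finset.card_union_le F G
        rw [show M + (V + 1) = M + 1 + V by omega] at h1
        rw [← add_assoc, pow_succ]
        omega
      · rcases lt_trichotomy (τ 0) c with h | h | h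
        · obtain ⟨σ, a, b⟩ := k2 τ (by unfold Nat.dist at hτ ⊢; omega)
          exact ⟨σ, by simp [a], b⟩
        · obtain ⟨σ, a, b⟩ := h2 τ h (by omega)
          exact ⟨σ, by simp [a], b⟩
        · obtain ⟨σ, a, b⟩ := g2 τ (by unfold Nat.dist at hτ ⊢; omega)
          exact ⟨σ, by simp [a], b⟩

end LIP

theorem p_LIP : S_LIP := fun M V => by
  obtain ⟨F, h1, h2⟩ := LIP.all M V 0
  exact ⟨F, h1, fun τ hτ => h2 τ (by rwa [Nat.dist_zero_left])⟩

end Pool.Agent.P.MP_f04817_lc.Co
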