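import Pool.Agent.P.MP_f04817_lc.Co.Iface

/-! Step NEST: the coarse place is monotone and arcs are nested in time. -/

set_option autoImplicit false

namespace Pool.Agent.P.MP_f04817_lc.Co

open scoped Classical

theorem p_NEST : S_NEST := by
  refine ⟨fun M L hL hLM x y hxy => ?_, fun k K n W t t' htt hT j hj => ?_⟩
  · have hM : 0 < M := by omega
    rcases lam_cases hM L x with ⟨u, u1, u2⟩ | ⟨ex, _⟩
    · rw [lam_J hL u1 u2]
      rcases lam_cases hM L y with ⟨v, v1, v2⟩ | ⟨ey, e0 | ⟨v, v1, v2⟩⟩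
      · rw [lam_J hL v1 v2]
        have h1 : u < v + 1 := Nat.lt_of_mul_lt_mul_right (a := M) (by omega)
        exact Nat.mul_le_mul_right _ (by omega)
      · omega
      · rw [ey]
        have h1 : u < v := Nat.lt_of_mul_lt_mul_right (a := M) (by omega)
        have h2 : (u + 1) * M ≤ v * M := Nat.mul_le_mul_right _ h1
        omega
    · rw [ex]
      rcases lam_cases hM L y with ⟨v, v1, v2⟩ | ⟨ey, _⟩
      · rw [lam_J hL v1 v2]
        omega
      · rw [ey]
        exact hxy
  · have h1 : W.c t' (W.st t j).1 := W.c_mono htt hT ⟨j, le_rfl, hj⟩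
    obtain ⟨j', a1, a2⟩ := h1
    refine ⟨j', a1, ?_⟩
    by_contra hn
    have h2 : W.c t' (W.st t' j').2.1 := W.c_mono htt hT ⟨j, by omega, by omega⟩
    exact W.r_unc hT (by omega) h2

end Pool.Agent.P.MP_f04817_lc.Co
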