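import Pool.Agent.P.MP_f04817_lc.Co.Iface

set_option autoImplicit false

namespace Pool.Agent.P.MP_f04817_lc.Co

open scoped Classical

namespace NOSW

/-- the bound for the number of values of the deeper components -/
def ep (ρ : ℕ → ℕ) : ℕ → ℕ
  | 0 => 1
  | s + 1 => ρ (ep ρ s) * ep ρ s

theorem ep_pos {ρ : ℕ → ℕ} (h : ∀ e, 0 < ρ e) (s : ℕ) : 0 < ep ρ s := by
  induction s with
  | zero => exact Nat.one_pos
  | succ s ih => exact Nat.mul_pos (h _) ih

theorem ep_mono {ρ : ℕ → ℕ} (h : ∀ e, 0 < ρ e) : Monotone (ep ρ) :=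
  monotone_nat_of_le_succ fun _ => Nat.le_mul_of_pos_left _ (h _)

theorem card_EE {G : Type} [Group G] (γ : ℕ → G) (ρ : ℕ → ℕ) (m s d : ℕ) (h : d + s = m + 1) :
    (EE γ (fun d => ρ (ep ρ (m - d))) s d).card ≤ ep ρ s := by
  induction s generalizing d with
  | zero => exact (Finset.card_singleton _).le
  | succ s ih =>
    refine (Finset.card_image₂_le _ _ _).trans ?_
    simp only [Finset.card_range, show m - d = s by omega]
    exact Nat.mul_le_mul_left _ (ih (d + 1) (by omega))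

/-- the number of coarse equations -/
def qq (k u c y f : ℕ) : ℕ :=
  u * (c * ((u + 1) * ((u + 1) * (f * y * (f * y))) * ((u + 1) * ((u + 1) * (f * y * (f * y))))) ^ k)

theorem card_Sc2 {G : Type} [Group G] {k b : ℕ} (D : Rels G k) (M : ℕ) (U : Fin b → Finset ℕ)
    (Y F : Finset G) {u f : ℕ} (hU : ∀ i, (U i).card ≤ u) (hF : F.card ≤ f) :
    (Sc2 D M U Y F).card ≤ qq k u (@Fintype.card _ D.fin) Y.card f ^ b := by
  unfold Sc2
  rw [Fintype.card_piFinset]
  refine (Finset.prod_le_pow_card _ _ _ fun i _ => ?_).trans_eq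
    (by rw [Finset.card_univ, Fintype.card_fin])
  have h1 : ((U i).image fun x => x / M - 1).card ≤ u := Finset.card_image_le.trans (hU i)
  have h2 : (Finset.image₂ (· * ·) F Y).card ≤ f * Y.card :=
    (Finset.card_image₂_le _ _ _).trans (Nat.mul_le_mul_right _ hF)
  have h3 : (insert 0 (U i)).card ≤ u + 1 :=
    (Finset.card_insert_le _ _).trans (Nat.succ_le_succ (hU i))
  have h4 : (En2 (U i) Y F).card ≤ (u + 1) * ((u + 1) * (f * Y.card * (f * Y.card))) := by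
    unfold En2
    rw [Finset.card_product, Finset.card_product, Finset.card_product]
    gcongr
  rw [Finset.card_product, Finset.card_product, Fintype.card_piFinset_const, Finset.card_product]
  unfold qq
  exact Nat.mul_le_mul h1 (Nat.mul_le_mul le_rfl (Nat.pow_le_pow_left (Nat.mul_le_mul h4 h4) k))

theorem arith {X A q b c O : ℕ} (hA : 0 < A)
    (h : X * (2 * A * (q + 1)) ^ b ≤ c * A ^ b * (q ^ b * O)) : X * 2 ^ b ≤ c * O := by
  refine Nat.le_of_mul_le_mul_right (c := A ^ b * (q + 1) ^ b) ?_ (by positivity)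
  calc X * 2 ^ b * (A ^ b * (q + 1) ^ b) = X * (2 * A * (q + 1)) ^ b := by
        rw [mul_pow, mul_pow]; ring
    _ ≤ c * A ^ b * (q ^ b * O) := h
    _ ≤ c * A ^ b * ((q + 1) ^ b * O) := by gcongr; omega
    _ = _ := by ring

theorem Om2_pos {R : ℕ → ℕ} {Mk : ℕ → Finset ℕ} (h1 : ∀ d, ∀ v ∈ Mk d, v < R d)
    (h2 : ∀ d, (Mk d).Nonempty) (m n : ℕ) : 0 < (Om2 R Mk m n).card := by
  choose v hv using h2
  refine Finset.card_pos.mpr ⟨fun q =>
    if q ∈ Finset.range (m + 1) ×ˢ Finset.range (n + 1) then v q.1 else 0,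
    Finset.mem_filter.mpr ⟨mem_Om.mpr ⟨fun q => ?_, fun q hq => if_neg hq⟩, fun q hq => ?_⟩⟩
  · have := h1 _ _ (hv q.1)
    split_ifs <;> omega
  · simp only [if_pos hq]
    exact hv _

end NOSW

open NOSW in
theorem p_NOSW (h1 : S_SPREAD) (h2 : S_BAD) (h3 : S_COARSE) : S_NOSW := by
  intro G _ S s1 hS hcl k K D Y
  obtain ⟨γ, g0, g1, g2⟩ := h1 G S s1 hcl
  choose mk mk1 mk2 using g2
  obtain ⟨R0, Φ, f1, f2, f3⟩ := h3 G k D
  let c0 := 1 + 4 * k + 4 * k * (4 * k * (4 * k) + 4 * k + K + 2)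
  let c1 := 4 * k * (4 * k * (2 * k * R0)) + (2 * k + 1) * R0
  let q : ℕ → ℕ := fun e => qq k (2 * k * R0) (@Fintype.card _ D.fin) Y.card (e * e)
  let Q : ℕ → ℕ := fun e => 2 * 9 ^ c1 * (q e + 1)
  let ρ : ℕ → ℕ := fun e => (mk (Q e)).sup id + 1
  have hρ : ∀ e, 0 < ρ e := fun e => Nat.succ_pos _
  let B : ℕ → ℕ := fun b => 4 * k * (2 * k * (R0 * b) + 4 * k) + 4 * k + K + 1
  let h := (2 * k + 2 + 1) * ep ρ (2 * k + 2 + 1)
  let n : ℕ → ℕ := fun b => TT k K (B b) (2 * h) (2 * k + 2) * (2 * h) + h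
  have pB : Pol B := ((((Pol.const (4 * k)).mul (((Pol.const (2 * k)).mul
    ((Pol.const R0).mul Pol.id)).add (Pol.const (4 * k)))).add (Pol.const (4 * k))).add
    (Pol.const K)).add (Pol.const 1)
  have pn : Pol fun b => n b + 1 :=
    (((pol_TT k K pB (Pol.const (2 * h)) (2 * k + 2)).mul (Pol.const (2 * h))).add
      (Pol.const h)).add (Pol.const 1)
  obtain ⟨b, hb⟩ := (((Pol.const (2 * k + 2 + 1)).mul
    (((pn.mul pn).pow k).mul ((pn.mul pn).pow k))).mul (Pol.const (9 ^ c0))).lt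
  have hn : MM k K (B b) (2 * h) (2 * k + 2) 0 + h = n b := by
    rw [MM_zero k K (B b) (2 * h) le_rfl]
    simp [MM, n]
  have P : Par (MM k K (B b) (2 * h) (2 * k + 2)) (fun d => ρ (ep ρ (2 * k + 2 - d))) h
      (ep ρ (2 * k + 2 + 1)) (2 * k + 2) :=
    ⟨fun i j hij => MM_dvd _ _ _ _ _ hij, fun d => le_MM _ _ _ _ _ (Nat.succ_pos _), rfl,
      ep_pos hρ _, fun d hd => le_trans (Nat.le_mul_of_pos_right _ (ep_pos hρ _))
        (ep_mono hρ (show 2 * k + 2 - d + 1 ≤ 2 * k + 2 + 1 by omega))⟩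
  have hW := fun W : Arc k K (MM k K (B b) (2 * h) (2 * k + 2) 0 + h) =>
    noWin (B := B b) (by simp only [B]; omega) P.h0 W
  have hL := fun r hr => P.loop (γ := γ) (r := r) hr s1 hS g0 g1
  rw [hn] at hW hL
  generalize MM k K (B b) (2 * h) (2 * k + 2) = M at P hW hL
  generalize n b = n at hb hW hL
  generalize hm : 2 * k + 2 = m at P hW hL hb
  generalize ep ρ (m + 1) = l at P hL
  clear_value h
  set R : ℕ → ℕ := fun d => ρ (ep ρ (m - d)) with hR
  let Mk : ℕ → Finset ℕ := fun d => mk (Q (ep ρ (m - d)))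
  have hMk : ∀ d, ∀ v ∈ Mk d, v < R d := fun d v hv =>
    Nat.lt_succ_of_le (Finset.le_sup (f := id) hv)
  let Bad : ℕ × (Fin k → ℕ × ℕ) × (Fin k → ℕ × ℕ) → Finset (ℕ × ℕ → ℕ) := fun a =>
    (Φ (Nset (M a.1) (B b) (endsOf a.2.1 ∪ endsOf a.2.2)) b).biUnion fun U =>
      ((Sc2 D (M a.1) U Y (FF γ R m a.1)).filter (Valid2 D (M a.1) (2 * h) n)).biUnion fun σ =>
        (Om2 R Mk m n).filter fun r => ∀ i, Eqn D (ZZ γ M h l m r) (σ i)
  have k1 : ∀ a ∈ Finset.range (m + 1) ×ˢ Arcs k n ×ˢ Arcs k n,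
      (Bad a).card * 2 ^ b ≤ 9 ^ c0 * (Om2 R Mk m n).card := by
    intro a ha
    have hδ : a.1 ≤ m := Nat.lt_succ_iff.mp (Finset.mem_range.mp (Finset.mem_product.mp ha).1)
    have e1 : (endsOf a.2.1 ∪ endsOf a.2.2).card ≤ 4 * k := by
      have := card_endsOf a.2.1
      have := card_endsOf a.2.2
      exact (Finset.card_union_le _ _).trans (by omega)
    have e2 : (Nset (M a.1) (B b) (endsOf a.2.1 ∪ endsOf a.2.2)).card ≤
        1 + 4 * k + 4 * k * (B b + 1) := (card_Nset _ _ _).trans (by gcongr)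
    have e3 : (Φ (Nset (M a.1) (B b) (endsOf a.2.1 ∪ endsOf a.2.2)) b).card ≤
        9 ^ c0 * (9 ^ c1) ^ b := by
      rw [← pow_mul, ← pow_add]
      refine (f1 _ _).trans (Nat.pow_le_pow_right (by norm_num) ?_)
      refine (Nat.add_le_add_right e2 _).trans_eq ?_
      simp only [B, c0, c1]
      ring
    have e4 := NOSW.card_EE γ ρ m (m - a.1) (a.1 + 1) (by omega)
    have e5 : (FF γ R m a.1).card ≤ ep ρ (m - a.1) * ep ρ (m - a.1) :=
      (Finset.card_image₂_le _ _ _).trans (Nat.mul_le_mul e4 e4)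
    refine arith (A := 9 ^ c1) (q := q (ep ρ (m - a.1))) (by positivity) ?_
    refine le_trans (Nat.mul_le_mul_right _ Finset.card_biUnion_le) ?_
    rw [Finset.sum_mul]
    refine (Finset.sum_le_card_nsmul _ _ (q (ep ρ (m - a.1)) ^ b * (Om2 R Mk m n).card)
      fun U hU => ?_).trans (Nat.mul_le_mul_right _ e3)
    refine le_trans (Nat.mul_le_mul_right _ Finset.card_biUnion_le) ?_
    rw [Finset.sum_mul]
    refine (Finset.sum_le_card_nsmul _ _ (Om2 R Mk m n).card fun σ hσ =>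
      h2 G k b D M R h l m a.1 n _ γ Mk σ P hδ hMk (mk1 _) (mk2 _)
        (Finset.mem_filter.mp hσ).2).trans ?_
    exact Nat.mul_le_mul_right _ ((Finset.card_filter_le _ _).trans
      (card_Sc2 D _ U Y _ (f2 _ _ U hU) e5))
  by_contra hc
  push Not at hc
  have k2 : Om2 R Mk m n ⊆ (Finset.range (m + 1) ×ˢ Arcs k n ×ˢ Arcs k n).biUnion Bad := by
    intro r hr
    have hr' := (mem_Om.mp (Finset.mem_filter.mp hr).1).1
    obtain ⟨W⟩ := hc _ _ (hL r hr')
    obtain ⟨δ, hδ, Mp, hw⟩ := hW W.W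
    obtain ⟨a, ha, U, hU, σ, t1, t2, t3⟩ := f3 M R h l m δ n K b (B b) Mp γ r Y P hr' hδ
      (by simp only [B]; omega) W hw
    exact Finset.mem_biUnion.mpr ⟨(δ, a), Finset.mem_product.mpr
      ⟨Finset.mem_range.mpr (by simp only; omega), ha⟩, Finset.mem_biUnion.mpr ⟨U, hU,
        Finset.mem_biUnion.mpr
          ⟨σ, Finset.mem_filter.mpr ⟨t1, t2⟩, Finset.mem_filter.mpr ⟨hr, t3⟩⟩⟩⟩
  have k4 := Nat.mul_le_mul_right (2 ^ b) ((Finset.card_le_card k2).trans Finset.card_biUnion_le)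
  rw [Finset.sum_mul] at k4
  have k5 := k4.trans (Finset.sum_le_card_nsmul _ _ _ k1)
  rw [smul_eq_mul, mul_comm, Finset.card_product, Finset.card_product, Arcs,
    Fintype.card_piFinset_const, Finset.card_product, Finset.card_range, Finset.card_range,
    ← mul_assoc] at k5
  exact absurd (Nat.le_of_mul_le_mul_right k5 (Om2_pos hMk (fun _ => mk1 _) m n)) (not_le.mpr hb)

end Pool.Agent.P.MP_f04817_lc.Co
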