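import Pool.Agent.P.MP_f04817_lc.Co.Iface

set_option autoImplicit false

namespace Pool.Agent.P.MP_f04817_lc.Co

open scoped Classical

namespace RAM

theorem aux {C : Type} (n : ℕ) : ∃ R : ℕ, ∀ (col : ℕ → ℕ → C) (Γ : Finset C) (s : Finset ℕ),
    Γ.card = n → R ≤ s.card → (∀ x ∈ s, ∀ y ∈ s, x < y → col x y ∈ Γ) →
      ∃ x ∈ s, ∃ y ∈ s, ∃ w ∈ s, x < y ∧ y < w ∧ col x y = col y w ∧ col x w = col y w := by
  induction n with
  | zero =>
    refine ⟨2, fun col Γ s hΓ hs h => ?_⟩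
    obtain ⟨x, hx, y, hy, hxy⟩ := Finset.one_lt_card.1 hs
    rw [Finset.card_eq_zero.1 hΓ] at h
    rcases lt_or_gt_of_ne hxy with e | e
    · simpa using h x hx y hy e
    · simpa using h y hy x hx e
  | succ n ih =>
    obtain ⟨R, hR⟩ := ih
    refine ⟨(n + 1) * R + 2, fun col Γ s hΓ hs h => ?_⟩
    have hne : s.Nonempty := Finset.card_pos.1 (by omega)
    have hm := s.min'_mem hne
    set m := s.min' hne
    have hlt : ∀ y ∈ s.erase m, m < y := fun y hy =>
      lt_of_le_of_ne (s.min'_le y (Finset.mem_of_mem_erase hy)) (Finset.ne_of_mem_erase hy).symm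
    obtain ⟨c, hc, hcard⟩ := Finset.exists_lt_card_fiber_of_mul_lt_card_of_maps_to
      (s := s.erase m) (t := Γ) (f := col m) (n := R)
      (fun y hy => h m hm y (Finset.mem_of_mem_erase hy) (hlt y hy))
      (by rw [Finset.card_erase_of_mem hm, hΓ]; omega)
    set t := (s.erase m).filter fun y => col m y = c with ht
    have hts : ∀ y ∈ t, y ∈ s ∧ m < y ∧ col m y = c := fun y hy =>
      ⟨Finset.mem_of_mem_erase (Finset.mem_filter.1 hy).1, hlt y (Finset.mem_filter.1 hy).1,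
        (Finset.mem_filter.1 hy).2⟩
    by_cases hex : ∃ y ∈ t, ∃ w ∈ t, y < w ∧ col y w = c
    · obtain ⟨y, hy, w, hw, h1, h2⟩ := hex
      exact ⟨m, hm, y, (hts y hy).1, w, (hts w hw).1, (hts y hy).2.1, h1,
        (hts y hy).2.2.trans h2.symm, (hts w hw).2.2.trans h2.symm⟩
    · obtain ⟨x, hx, y, hy, w, hw, h1⟩ := hR col (Γ.erase c) t
        (by rw [Finset.card_erase_of_mem hc, hΓ]; rfl) hcard.le fun x hx y hy hxy =>
          Finset.mem_erase.2 ⟨fun e => hex ⟨x, hx, y, hy, hxy, e⟩,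
            h x (hts x hx).1 y (hts y hy).1 hxy⟩
      exact ⟨x, (hts x hx).1, y, (hts y hy).1, w, (hts w hw).1, h1⟩

end RAM

theorem p_RAM : S_RAM := by
  intro C _
  have := Fintype.ofFinite C
  obtain ⟨R, hR⟩ := RAM.aux (C := C) (Fintype.card C)
  refine ⟨R, fun col => ?_⟩
  obtain ⟨x, -, y, -, w, hw, h1, h2, h3⟩ := hR col Finset.univ (Finset.range R) rfl (by simp)
    fun _ _ _ _ _ => Finset.mem_univ _
  exact ⟨x, y, w, h1, h2, Finset.mem_range.1 hw, h3⟩

end Pool.Agent.P.MP_f04817_lc.Co
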