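import Pool.Agent.P.MP_f04817_lc.Co.Iface

/-! The scenario of a sweep, with increasing times. -/

set_option autoImplicit false

namespace Pool.Agent.P.MP_f04817_lc.Co

open scoped Classical

open Sweep in
theorem p_SCEN : S_SCEN := by
  intro k K n Mp M L B β W hL hLM hB h
  obtain ⟨t0, t1, h01, h1, hfr, ⟨u0, hb⟩, hsw⟩ := h
  have w : W.Win Mp M L t0 t1 := ⟨hL, hLM, h1, hfr, hsw⟩
  obtain ⟨τ0, τ1, c0, c1, m0, lo, hi⟩ := w.range h01 (by omega) hb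
  have hθ : ∀ u, ∃ s, u ∈ W.X M τ0 τ1 → W.Cl Mp M L t0 t1 s ∧ τ0 < s ∧ s ≤ τ1 ∧
      ∀ τ, W.Cl Mp M L t0 t1 τ → (W.c τ (u * M) ↔ s ≤ τ) := fun u => by
    by_cases hu : u ∈ W.X M τ0 τ1
    · obtain ⟨u1, u2⟩ := (w.mem_X c1.2.1).mp hu
      have ex : ∃ τ, W.Cl Mp M L t0 t1 τ ∧ W.c τ (u * M) := ⟨τ1, c1, u2⟩
      obtain ⟨s1, s2⟩ := Nat.find_spec ex
      exact ⟨Nat.find ex, fun _ => ⟨s1, lt_of_le_of_ne (m0 _ s1) fun e => u1 (e ▸ s2),
        Nat.find_min' ex ⟨c1, u2⟩, fun τ cτ => ⟨fun hc => Nat.find_min' ex ⟨cτ, hc⟩,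
          fun hs => W.c_mono hs (cτ.2.1.trans h1) s2⟩⟩⟩
    · exact ⟨0, fun h => absurd h hu⟩
  choose θ hθ using hθ
  set U := W.X M τ0 τ1 with hU
  have hex : ∀ u ∈ U, ¬ Mp ∣ u * M := fun u hu hd => by
    obtain ⟨u1, u2⟩ := (w.mem_X c1.2.1).mp hu
    exact u1 (w.frz c0.1 c0.2.1 c1.2.1 hd le_rfl (by omega) u2)
  have k1 : U.card ≤ 4 * k * (U.image θ).card := by
    refine Finset.card_le_mul_card_image U (4 * k) fun s hs => ?_
    obtain ⟨v, hv, rfl⟩ := Finset.mem_image.mp hs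
    obtain ⟨v1, v2, _, _⟩ := hθ v hv
    obtain ⟨τ, p1, _, p3, p4⟩ := prev c0 v2
    refine le_trans (Finset.card_le_card fun u hu => ?_) (w.stepc p1 v1 p4)
    obtain ⟨u1, u2⟩ := Finset.mem_filter.mp hu
    have := (hθ u u1).2.2.2
    exact (w.mem_X v1.2.1).mpr ⟨fun hc => by have := (this τ p1).mp hc; omega,
      (this _ v1).mpr u2.le⟩
  set Fr := U.filter fun u => u + 1 ∈ U ∧ θ u ≠ θ (u + 1) with hFr
  have k2 : (U.image θ).card ≤ 4 * k + Fr.card := by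
    have hsub : U.image θ ⊆ (U.filter (fun u => u + 1 ∉ U) ∪ Fr).image θ := by
      intro s hs
      obtain ⟨v, hv, rfl⟩ := Finset.mem_image.mp hs
      obtain ⟨u, hu, hmax⟩ := Finset.exists_max_image (U.filter fun u => θ u = θ v) id
        ⟨v, Finset.mem_filter.mpr ⟨hv, rfl⟩⟩
      obtain ⟨u1, u2⟩ := Finset.mem_filter.mp hu
      refine Finset.mem_image.mpr ⟨u, ?_, u2⟩
      by_cases hn : u + 1 ∈ U
      · refine Finset.mem_union_right _ (Finset.mem_filter.mpr ⟨u1, hn, fun e => ?_⟩)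
        have := hmax (u + 1) (Finset.mem_filter.mpr ⟨hn, e ▸ u2⟩)
        simp at this
      · exact Finset.mem_union_left _ (Finset.mem_filter.mpr ⟨u1, hn⟩)
    have h2 : (U.filter fun u => u + 1 ∉ U).card ≤ 4 * k := by
      refine (card_le_of_img (nd M) fun u hu => ?_).trans (card_ends2 (W := W) τ0 τ1)
      obtain ⟨u1, u2⟩ := Finset.mem_filter.mp hu
      rcases w.near c0 c1 u1 with ⟨x, hx, x1, x2⟩ | h
      · exact ⟨x, hx, nd_eq (by omega) x2⟩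
      · exact absurd h.2 u2
    have := ((Finset.card_le_card hsub).trans Finset.card_image_le).trans
      (Finset.card_union_le _ _)
    omega
  have hFr' : ∀ u ∈ Fr, W.Cl Mp M L t0 t1 (min (θ u) (θ (u + 1))) ∧ τ0 ≤ min (θ u) (θ (u + 1)) ∧
      min (θ u) (θ (u + 1)) ≤ τ1 ∧ ¬ Mp ∣ u * M ∧ ¬ Mp ∣ (u + 1) * M ∧ u ≤ n ∧
      ((W.c (min (θ u) (θ (u + 1))) (u * M) ∧ ¬ W.c (min (θ u) (θ (u + 1))) ((u + 1) * M)) ∨
        (¬ W.c (min (θ u) (θ (u + 1))) (u * M) ∧ W.c (min (θ u) (θ (u + 1))) ((u + 1) * M))) ∧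
      ∀ τ, W.Cl Mp M L t0 t1 τ → τ < min (θ u) (θ (u + 1)) →
        ¬ W.c τ (u * M) ∧ ¬ W.c τ ((u + 1) * M) := fun u hu => by
    obtain ⟨u1, u2, u3⟩ := Finset.mem_filter.mp hu
    obtain ⟨a1, a2, a3, a4⟩ := hθ u u1
    obtain ⟨b1, b2, b3, b4⟩ := hθ _ u2
    have cm : W.Cl Mp M L t0 t1 (min (θ u) (θ (u + 1))) := by
      rcases min_choice (θ u) (θ (u + 1)) with e | e <;> rw [e] <;> assumption
    refine ⟨cm, by omega, by omega, hex u u1, hex _ u2,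
      Nat.lt_succ_iff.mp (Finset.mem_range.mp (Finset.mem_filter.mp u1).1), ?_, fun τ cτ hτ => ?_⟩
    · rw [a4 _ cm, b4 _ cm]
      omega
    · rw [a4 _ cτ, b4 _ cτ]
      omega
  have k3 : Fr.card ≤ 2 * k * (Fr.image fun u => min (θ u) (θ (u + 1))).card := by
    refine Finset.card_le_mul_card_image Fr (2 * k) fun s _ => ?_
    refine (card_le_of_img (nd M) fun u hu => ?_).trans (W.card_ends s)
    obtain ⟨u1, u2⟩ := Finset.mem_filter.mp hu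
    obtain ⟨a1, _, _, a4, a5, _, a7, _⟩ := hFr' u u1
    exact u2 ▸ (w.det a1 a4 a5 a7).1
  have k4 : β ≤ (Fr.image fun u => min (θ u) (θ (u + 1))).card := by
    have j1 : 2 * k * β + 4 * k < (U.image θ).card :=
      Nat.lt_of_mul_lt_mul_left (a := 4 * k) (by omega)
    exact (Nat.lt_of_mul_lt_mul_left (a := 2 * k) (by omega)).le
  have hp : ∀ i : Fin β, ∃ u ∈ Fr, min (θ u) (θ (u + 1)) = Finset.orderEmbOfCardLe _ k4 i :=
    fun i => Finset.mem_image.mp (Finset.orderEmbOfCardLe_mem _ k4 i)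
  choose p hp1 hp2 using hp
  refine ⟨τ0, τ1, fun i => min (θ (p i)) (θ (p i + 1)), p, c0.2.1.trans h1, c1.2.1.trans h1,
    fun i i' hii => ?_, fun i => ?_, fun i j hne => ?_, fun i => ?_, fun i i' hii j => ?_⟩
  · show min _ _ < min _ _
    rw [hp2 i, hp2 i']
    exact (Finset.orderEmbOfCardLe _ k4).strictMono hii
  · obtain ⟨a1, _, _, a4, _, a6, _⟩ := hFr' _ (hp1 i)
    refine ⟨a1.2.1.trans h1, Nat.pos_of_ne_zero fun e => a4 ?_, a6⟩
    rw [e, zero_mul]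
    exact dvd_zero _
  · obtain ⟨a1, a2, a3, _⟩ := hFr' _ (hp1 i)
    exact w.loc c0 c1 a1 a2 a3 hi j hne
  · obtain ⟨a1, _, _, a4, a5, _, a7, _⟩ := hFr' _ (hp1 i)
    exact (w.det a1 a4 a5 a7).2
  · obtain ⟨_, _, _, a4, a5, _, _, a8⟩ := hFr' _ (hp1 i')
    have b1 := (hFr' _ (hp1 i)).1
    have := a8 _ b1 (by rw [hp2 i, hp2 i']; exact (Finset.orderEmbOfCardLe _ k4).strictMono hii)
    exact w.ind b1 a4 a5 this.1 this.2 j

end Pool.Agent.P.MP_f04817_lc.Co
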