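import Pool.Agent.P.MP_f04817_lc.Co.Iface

/-! One path that visits every element infinitely often carries finite sets of times that give
small weight to every thin set. -/

set_option autoImplicit false

namespace Pool.Agent.P.MP_f04817_lc.Co

open scoped Classical

namespace SPREAD

/-- one step of the walk: read a letter, or load the word for the next target -/
def step {G : Type} [Group G] (w : G → List G) (u : ℕ → G) :
    G × List G × ℕ → G × List G × ℕ
  | (x, [], n) => (x, w (x⁻¹ * u (n + 1)), n + 1)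
  | (x, a :: l, n) => (x * a, l, n)

theorem step_read {G : Type} [Group G] (w : G → List G) (u : ℕ → G) (l : List G) :
    ∀ (x : G) (n : ℕ), (step w u)^[l.length] (x, l, n) = (x * l.prod, [], n) := by
  induction l with
  | nil => intro x n; simp
  | cons a l ih =>
    intro x n
    rw [List.length_cons, Function.iterate_succ_apply]
    have h : step w u (x, a :: l, n) = (x * a, l, n) := rfl
    rw [h, ih, List.prod_cons, mul_assoc]

theorem step_reach {G : Type} [Group G] (w : G → List G) (u : ℕ → G)
    (hw : ∀ g, (w g).prod = g) (n : ℕ) :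
    ∃ t, n ≤ t ∧ (step w u)^[t] (1, w (u 0), 0) = (u n, [], n) := by
  induction n with
  | zero => exact ⟨(w (u 0)).length, Nat.zero_le _, by rw [step_read, hw, one_mul]⟩
  | succ n ih =>
    obtain ⟨t, ht, he⟩ := ih
    refine ⟨(w ((u n)⁻¹ * u (n + 1))).length + (1 + t), by omega, ?_⟩
    rw [Function.iterate_add_apply, Function.iterate_add_apply, he, Function.iterate_one]
    have h : step w u (u n, [], n) = (u n, w ((u n)⁻¹ * u (n + 1)), n + 1) := rfl
    rw [h, step_read, hw, mul_inv_cancel_left]

theorem step_inv {G : Type} [Group G] (S : Finset G) (w : G → List G) (u : ℕ → G)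
    (hw : ∀ g, ∀ a ∈ w g, a ∈ S) (p : G × List G × ℕ) (hp : ∀ a ∈ p.2.1, a ∈ S) :
    ∀ a ∈ (step w u p).2.1, a ∈ S := by
  obtain ⟨x, l, n⟩ := p
  cases l with
  | nil => exact hw _
  | cons b l => exact fun a ha => hp a (List.mem_cons_of_mem b ha)

theorem step_mem {G : Type} [Group G] (S : Finset G) (h1 : (1 : G) ∈ S) (w : G → List G)
    (u : ℕ → G) (p : G × List G × ℕ) (hp : ∀ a ∈ p.2.1, a ∈ S) :
    p.1⁻¹ * (step w u p).1 ∈ S := by
  obtain ⟨x, l, n⟩ := p
  cases l with
  | nil =>
    have h : x⁻¹ * x ∈ S := by rw [inv_mul_cancel]; exact h1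
    exact h
  | cons b l =>
    have h : x⁻¹ * (x * b) ∈ S := by
      rw [inv_mul_cancel_left]; exact hp b List.mem_cons_self
    exact h

theorem exists_path (G : Type) [Group G] (S : Finset G) (h1 : (1 : G) ∈ S)
    (hS : Submonoid.closure (S : Set G) = ⊤) :
    ∃ γ : ℕ → G, γ 0 = 1 ∧ (∀ i, (γ i)⁻¹ * γ (i + 1) ∈ S) ∧
      ∀ g, (Set.ofPred fun a => γ a = g).Infinite := by
  have hl : ∀ g : G, ∃ l : List G, (∀ a ∈ l, a ∈ S) ∧ l.prod = g := fun g =>
    Submonoid.exists_list_of_mem_closure (s := (S : Set G)) (by rw [hS]; exact Submonoid.mem_top g)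
  choose w hw1 hw2 using hl
  have hc : Countable G := by
    have hs : Function.Surjective fun l : List S => (l.map Subtype.val).prod := by
      intro g
      refine ⟨(w g).pmap (fun a ha => (⟨a, ha⟩ : S)) (hw1 g), ?_⟩
      simp only [List.map_pmap, List.pmap_eq_map, List.map_id']
      exact hw2 g
    exact hs.countable
  obtain ⟨e, he⟩ := exists_surjective_nat G
  let u : ℕ → G := fun n => e (Nat.unpair n).1
  have hinv : ∀ t, ∀ a ∈ ((step w u)^[t] (1, w (u 0), 0)).2.1, a ∈ S := by
    intro t
    induction t with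
    | zero => exact hw1 _
    | succ t ih =>
      rw [Function.iterate_succ_apply']
      exact step_inv S w u hw1 _ ih
  refine ⟨fun t => ((step w u)^[t] (1, w (u 0), 0)).1, rfl, fun i => ?_, fun g => ?_⟩
  · show _ * ((step w u)^[i + 1] (1, w (u 0), 0)).1 ∈ S
    rw [Function.iterate_succ_apply']
    exact step_mem S h1 w u _ (hinv i)
  · refine Set.infinite_of_forall_exists_gt fun N => ?_
    obtain ⟨m, hm⟩ := he g
    obtain ⟨t, ht, h⟩ := step_reach w u hw2 (Nat.pair m (N + 1))
    refine ⟨t, ?_, lt_of_lt_of_le (lt_of_lt_of_le (Nat.lt_succ_self N) (Nat.right_le_pair m _)) ht⟩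
    show ((step w u)^[t] (1, w (u 0), 0)).1 = g
    rw [h]
    show e (Nat.unpair (Nat.pair m (N + 1))).1 = g
    rw [Nat.unpair_pair]
    exact hm

end SPREAD

theorem p_SPREAD (h : S_WALK) : S_SPREAD := by
  intro G _ S h1 hS
  obtain ⟨γ, h0, hs, hi⟩ := SPREAD.exists_path G S h1 hS
  refine ⟨γ, h0, hs, fun Q => ?_⟩
  obtain ⟨ι, _, _, g, hg⟩ := h G S h1 hS Q
  let pos : ι → ℕ := fun i => Nat.nth (fun a => γ a = g i) (Fintype.equivFin ι i)
  have hp : ∀ i, γ (pos i) = g i := fun i => Nat.nth_mem_of_infinite (hi (g i)) _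
  have hinj : Function.Injective pos := by
    intro i i' e
    have e1 : g i = g i' := by rw [← hp i, ← hp i', e]
    have e2 : Nat.nth (fun a => γ a = g i) (Fintype.equivFin ι i) =
        Nat.nth (fun a => γ a = g i) (Fintype.equivFin ι i') := by
      have e3 : pos i' = Nat.nth (fun a => γ a = g i) (Fintype.equivFin ι i') := by rw [e1]
      rw [← e3, ← e]
    exact (Fintype.equivFin ι).injective (Fin.ext (Nat.nth_injective (hi (g i)) e2))
  refine ⟨Finset.univ.image pos, Finset.univ_nonempty.image pos, fun X hX => ?_⟩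
  rw [Finset.filter_image, Finset.card_image_of_injective _ hinj,
    Finset.card_image_of_injective _ hinj, Finset.card_univ]
  simp only [hp]
  exact hg X hX

end Pool.Agent.P.MP_f04817_lc.Co
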