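import Pool.Agent.P.MP_f04817_lc.Co.Iface

/-! A path to a given element without a sweep: a loop without a sweep followed by a word. -/

set_option autoImplicit false

namespace Pool.Agent.P.MP_f04817_lc.Co

open scoped Classical

namespace TAIL

/-- an arc cut at `m` -/
def cutE (m : ℕ) (q : Ent Unit) : Ent Unit := (min q.1 m, min q.2.1 m, 1, 1)

theorem cov_cut {k : ℕ} (m : ℕ) (s : Fin k → Ent Unit) (e : ℕ) :
    cov (fun i => cutE m (s i)) e ↔ cov s e ∧ e < m := by
  unfold cov cutE
  constructor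
  · rintro ⟨i, h1, h2⟩
    dsimp only at h1 h2
    exact ⟨⟨i, by omega, by omega⟩, by omega⟩
  · rintro ⟨⟨i, h1, h2⟩, h3⟩
    refine ⟨i, ?_, ?_⟩ <;> dsimp only <;> omega

/-- the arcs of a sweep cut at `m` -/
def cut {k K n : ℕ} (W : Arc k K n) (m : ℕ) (hm : m ≤ n) : Arc k K m where
  T := W.T
  st := fun t i => cutE m (W.st t i)
  le := fun t ht i => by
    have := W.le t ht i
    unfold cutE
    dsimp only
    omega
  mem := fun _ _ _ => ⟨Finset.mem_singleton_self _, Finset.mem_singleton_self _⟩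
  disj := fun t ht i j hij h1 h2 => by
    unfold cutE at h1 h2 ⊢
    dsimp only at h1 h2 ⊢
    have := W.disj t ht i j hij (by omega) (by omega)
    omega
  eqn := fun _ _ => Subsingleton.elim _ _
  mono := fun t ht e he => by
    rw [cov_cut] at he ⊢
    exact ⟨W.mono t ht e he.1, he.2⟩
  grow := fun t ht => by
    obtain ⟨A, hA, h⟩ := W.grow t ht
    refine ⟨A, hA, fun e he => ?_⟩
    rw [cov_cut] at he ⊢
    exact (h e he.1).imp (fun h' => ⟨h', he.2⟩) id
  init := fun e he => W.init e ((cov_cut m _ e).1 he).1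
  fin := by
    obtain ⟨A, hA, h⟩ := W.fin
    refine ⟨A, hA, fun e he => ?_⟩
    rw [cov_cut]
    exact (h e (by omega)).imp (fun h' => ⟨h', he⟩) id

variable {G : Type} [Group G]

/-- a loop of length `m` followed by the word `w` -/
def ext (z : ℕ → G) (m : ℕ) (w : List G) (x : ℕ) : G :=
  if x ≤ m then z x else (w.take (x - m)).prod

theorem ext_le (z : ℕ → G) (m : ℕ) (w : List G) {x : ℕ} (hx : x ≤ m) : ext z m w x = z x :=
  if_pos hx

theorem ext_add (z : ℕ → G) (m : ℕ) (w : List G) (hz : z m = 1) (i : ℕ) :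
    ext z m w (m + i) = (w.take i).prod := by
  unfold ext
  rcases Nat.eq_zero_or_pos i with rfl | hi
  · simp [hz]
  · rw [if_neg (by omega), Nat.add_sub_cancel_left]

/-- the products of the prefixes of a word -/
noncomputable def pre (w : List G) : Finset G :=
  (Finset.range (w.length + 1)).image fun i => (w.take i).prod

theorem mem_pre (w : List G) (i : ℕ) : (w.take i).prod ∈ pre w := by
  refine Finset.mem_image.2 ⟨min i w.length, Finset.mem_range.2 (by omega), ?_⟩
  rw [← List.take_eq_take_min]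

theorem corr_mem (z : ℕ → G) (m : ℕ) (w : List G) (hz : z m = 1) (x : ℕ) :
    (z (min x m))⁻¹ * ext z m w x ∈ pre w := by
  rcases le_total x m with hx | hx
  · rw [min_eq_left hx, ext_le z m w hx, inv_mul_cancel]
    simpa using mem_pre w 0
  · obtain ⟨i, rfl⟩ := Nat.exists_eq_add_of_le hx
    rw [min_eq_right hx, ext_add z m w hz, hz, inv_one, one_mul]
    exact mem_pre w i

/-- a sweep of the long path gives a sweep of the loop -/
noncomputable def restrict {k K : ℕ} {D : Rels G k} {Y : Finset G} {z : ℕ → G} {m : ℕ} {w : List G}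
    (hz : z m = 1) (V : Sw D K Y (ext z m w) (m + w.length)) :
    Sw D K (Finset.image₂ (· * ·) (pre w) Y) z m where
  W := cut V.W m (Nat.le_add_right _ _)
  y := fun t j =>
    ((z (min (V.W.st t j).1 m))⁻¹ * ext z m w (V.W.st t j).1 * (V.y t j).1,
      (z (min (V.W.st t j).2.1 m))⁻¹ * ext z m w (V.W.st t j).2.1 * (V.y t j).2)
  hy := fun t j =>
    ⟨Finset.mem_image₂_of_mem (corr_mem z m w hz _) (V.hy t j).1,
      Finset.mem_image₂_of_mem (corr_mem z m w hz _) (V.hy t j).2⟩
  col := V.col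
  tri := fun t t' t'' h1 h2 h3 h4 h5 => by
    obtain ⟨a, b, c⟩ := V.tri t t' t'' h1 h2 h3 h4 h5
    refine ⟨?_, fun j hj => b j ?_, fun j hj => ?_⟩
    · simpa only [cut, cutE, mul_assoc, mul_inv_cancel_left] using a
    · simp only [cut, cutE] at hj
      omega
    · have := c j hj
      simp only [cut, cutE]
      omega

end TAIL

theorem p_TAIL (h : S_NOSW) : S_TAIL := by
  intro G _ S h1 hs hc k K D Y s
  obtain ⟨w, hw, rfl⟩ := Submonoid.exists_list_of_mem_closure
    (show s ∈ Submonoid.closure (S : Set G) by rw [hc]; trivial)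
  obtain ⟨z, m, ⟨z0, zm, hz⟩, hE⟩ :=
    h G S h1 hs hc k K D (Finset.image₂ (· * ·) (TAIL.pre w) Y)
  refine ⟨TAIL.ext z m w, m + w.length, ⟨?_, fun i hi => ?_⟩, ?_,
    ⟨fun V => hE.false (TAIL.restrict zm V)⟩⟩
  · rw [TAIL.ext_le z m w (Nat.zero_le _), z0]
  · rcases lt_or_ge i m with him | him
    · rw [TAIL.ext_le z m w him.le, TAIL.ext_le z m w (Nat.succ_le_of_lt him)]
      exact hz i him
    · obtain ⟨j, rfl⟩ := Nat.exists_eq_add_of_le him
      have hj : j < w.length := by omega
      rw [Nat.add_assoc, TAIL.ext_add z m w zm, TAIL.ext_add z m w zm, List.prod_take_succ w j hj,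
        inv_mul_cancel_left]
      exact hw _ (List.getElem_mem hj)
  · rw [TAIL.ext_add z m w zm, List.take_length]

end Pool.Agent.P.MP_f04817_lc.Co
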