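import Pool.Agent.P.MP_f04817_lc.Co.Iface

/-! Few families contain the ends of all nested systems of disjoint intervals. -/

set_option autoImplicit false

namespace Pool.Agent.P.MP_f04817_lc.Co

open scoped Classical

theorem p_TV (h : S_CHAIN) : S_TV := by
  intro N k β
  obtain ⟨F, hF, hP0⟩ := h N k β
  have hP : ∀ (P : Fin β → Fin k → ℕ → Prop),
      (∀ i j x y w, x ≤ y → y ≤ w → P i j x → P i j w → P i j y) →
      (∀ i i', i ≤ i' → ∀ j x, P i j x → ∃ j', P i' j' x) →
      ∃ A ∈ F, ∀ i x, x ∈ A i ↔ x ∈ N ∧ ∃ j, P i j x :=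
    fun P p q => ⟨_, hP0 P p q, fun i x => Finset.mem_filter⟩
  refine ⟨(Finset.image₂ (fun (A A' : Fin β → Finset ℕ) i => A i \ A' i) F F).filter
    fun A => ∀ i, (A i).card ≤ 2 * k, ?_, fun A hA => (Finset.mem_filter.1 hA).2,
    fun a b h1 h2 h3 => ?_⟩
  · refine (Finset.card_filter_le _ _).trans ((Finset.card_image₂_le _ _ _).trans ?_)
    rw [show (9 : ℕ) = 3 * 3 from rfl, mul_pow]
    exact Nat.mul_le_mul hF hF
  obtain ⟨A1, c1, d1⟩ := hP (fun i j x => a i j < b i j ∧ a i j ≤ x ∧ x ≤ b i j)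
    (fun i j x y w _ _ p q => by omega) fun i i' e j x p => by
      obtain ⟨j', q⟩ := h3 i i' e j p.1
      exact ⟨j', by omega⟩
  obtain ⟨A2, c2, d2⟩ := hP (fun i j x => a i j < x ∧ x < b i j)
    (fun i j x y w _ _ p q => by omega) fun i i' e j x p => by
      obtain ⟨j', q⟩ := h3 i i' e j (p.1.trans p.2)
      exact ⟨j', by omega⟩
  refine ⟨_, Finset.mem_filter.2 ⟨Finset.mem_image₂_of_mem c1 c2, fun i => ?_⟩, fun i j p => ?_⟩
  · refine le_trans (Finset.card_le_card
      (t := Finset.univ.image (a i) ∪ Finset.univ.image (b i)) fun x hx => ?_) ?_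
    · obtain ⟨p, q⟩ := Finset.mem_sdiff.1 hx
      obtain ⟨p1, j, p2⟩ := (d1 i x).1 p
      have q1 : ¬ (a i j < x ∧ x < b i j) := fun r => q ((d2 i x).2 ⟨p1, j, r⟩)
      rw [Finset.mem_union, Finset.mem_image, Finset.mem_image]
      by_cases e : a i j = x
      · exact Or.inl ⟨j, Finset.mem_univ _, e⟩
      · exact Or.inr ⟨j, Finset.mem_univ _, by omega⟩
    · refine (Finset.card_union_le _ _).trans ?_
      have e1 := Finset.card_image_le (s := Finset.univ) (f := a i)
      have e2 := Finset.card_image_le (s := Finset.univ) (f := b i)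
      rw [Finset.card_univ, Fintype.card_fin] at e1 e2
      omega
  · have key : ∀ j' x, (x = a i j ∨ x = b i j) → ¬ (a i j' < x ∧ x < b i j') := by
      intro j' x e r
      by_cases e' : j = j'
      · subst e'
        omega
      · have := h2 i j j' e' p (r.1.trans r.2)
        omega
    exact ⟨Finset.mem_sdiff.2 ⟨(d1 i _).2 ⟨(h1 i j p).1, j, p, le_rfl, p.le⟩,
        fun q => ((d2 i _).1 q).2.elim fun j' r => key j' _ (Or.inl rfl) r⟩,
      Finset.mem_sdiff.2 ⟨(d1 i _).2 ⟨(h1 i j p).2, j, p, p.le, le_rfl⟩,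
        fun q => ((d2 i _).1 q).2.elim fun j' r => key j' _ (Or.inr rfl) r⟩⟩

end Pool.Agent.P.MP_f04817_lc.Co
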