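import Pool.Agent.P.MP_f04817_lc.Co.Iface

/-! Step ALG: loops act on the admissible valuations through a group of multipliers. -/

set_option autoImplicit false

namespace Pool.Agent.P.MP_f04817_lc.Co

open scoped Classical

namespace ALG

variable {V G : Type} [Group G]

lemma val_append (v : V → G) (a b : List V) : val v (a ++ b) = val v a * val v b := by
  simp [val]

lemma val_cons (v : V → G) (a : V) (b : List V) : val v (a :: b) = v a * val v b := by
  simp [val]

lemma val_congr {v v' : V → G} {u : List V} (h : ∀ a ∈ u, v a = v' a) : val v u = val v' u := by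
  unfold val
  rw [List.map_congr_left h]

lemma val_hom {ψ : List V → List V} (hψ : SwA.LHom ψ) (v : V → G) (u : List V) :
    val (fun a => val v (ψ [a])) u = val v (ψ u) := by
  induction u with
  | nil => rw [hψ.1]; rfl
  | cons a u ih => rw [val_cons, ih, ← val_append, ← hψ.2]; rfl

lemma mem_hom {ψ : List V → List V} (hψ : SwA.LHom ψ) {u : List V} {b : V} (hb : b ∈ ψ u) :
    ∃ a ∈ u, b ∈ ψ [a] := by
  induction u with
  | nil => rw [hψ.1] at hb; cases hb
  | cons a u ih =>
    rw [show a :: u = [a] ++ u from rfl, hψ.2, List.mem_append] at hb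
    rcases hb with hb | hb
    · exact ⟨a, List.mem_cons_self, hb⟩
    · obtain ⟨c, hc, h⟩ := ih hb
      exact ⟨c, List.mem_cons_of_mem _ hc, h⟩

lemma once {a : V} {α β : List V} (h : (α ++ a :: β).count a = 1) : a ∉ α ∧ a ∉ β := by
  rw [List.count_append, List.count_cons_self] at h
  exact ⟨List.count_eq_zero.1 (by omega), List.count_eq_zero.1 (by omega)⟩

lemma split_once {a : V} {w : List V} (h : w.count a = 1) :
    ∃ α β, w = α ++ a :: β ∧ a ∉ α ∧ a ∉ β := by
  obtain ⟨α, β, rfl⟩ := List.append_of_mem (List.count_pos_iff.1 (by omega : 0 < w.count a))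
  exact ⟨α, β, rfl, once h⟩

/-- the part before the first `a` -/
noncomputable def pre (a : V) (w : List V) : List V := w.takeWhile fun b => decide (b ≠ a)

/-- the part after the first `a` -/
noncomputable def suf (a : V) (w : List V) : List V := (w.dropWhile fun b => decide (b ≠ a)).tail

lemma pre_suf {a : V} {α : List V} (β : List V) (h : a ∉ α) :
    pre a (α ++ a :: β) = α ∧ suf a (α ++ a :: β) = β := by
  have h' : ∀ b ∈ α, decide (b ≠ a) = true := fun b hb => decide_eq_true fun e => h (e ▸ hb)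
  unfold pre suf
  rw [List.takeWhile_append_of_pos h', List.dropWhile_append_of_pos h']
  simp

lemma val_update0 (q : V → G) {j : V} {w : List V} (h : j ∉ w) (x : G) :
    val (Function.update q j x) w = val q w :=
  val_congr fun a ha => Function.update_of_ne (fun e : a = j => h (e ▸ ha)) _ _

lemma val_update1 (q : V → G) {j : V} {w : List V} (h : w.count j = 1) :
    ∃ A C : G, ∀ x, val (Function.update q j x) w = A * x * C := by
  obtain ⟨α, β, rfl, h1, h2⟩ := split_once h
  exact ⟨val q α, val q β, fun x => by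
    rw [val_append, val_cons, val_update0 q h1, val_update0 q h2, Function.update_self, mul_assoc]⟩

/-- the two-sided action -/
def act (m : V → G × G) (u : V → G) : V → G := fun a => (m a).1 * u a * ((m a).2)⁻¹

lemma act_mul (m m' : V → G × G) (u : V → G) : act (m * m') u = act m (act m' u) := by
  funext a; simp [act, mul_assoc]

lemma act_one (u : V → G) : act 1 u = u := by
  funext a; simp [act]

/-- the multipliers that keep `J` -/
def stab [Finite V] (hG : ∀ g : G, IsOfFinOrder g) (J : Set (V → G)) : Subgroup (V → G × G) where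
  carrier := {m | ∀ u ∈ J, act m u ∈ J}
  mul_mem' := fun {a b} ha hb u hu => by rw [act_mul]; exact ha _ (hb u hu)
  one_mem' := fun u hu => by rw [act_one]; exact hu
  inv_mem' := fun {m} hm => by
    have hf : IsOfFinOrder m := IsOfFinOrder.pi fun a => (hG (m a).1).prod_mk (hG (m a).2)
    obtain ⟨n, hn⟩ := hf.mem_powers_iff_mem_zpowers.2
      (Subgroup.inv_mem _ (Subgroup.mem_zpowers m))
    rw [← hn]
    clear hn
    induction n with
    | zero => intro u hu; simpa [act_one] using hu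
    | succ n ih => intro u hu; simp only [pow_succ, act_mul]; exact ih _ (hm u hu)

/-- the left slot -/
noncomputable def sl (a : V) : G →* (V → G × G) :=
  (MonoidHom.mulSingle (fun _ : V => G × G) a).comp (MonoidHom.inl G G)

/-- the right slot -/
noncomputable def sr (a : V) : G →* (V → G × G) :=
  (MonoidHom.mulSingle (fun _ : V => G × G) a).comp (MonoidHom.inr G G)

lemma sl_apply (a : V) (g : G) (b : V) : sl a g b = if b = a then (g, 1) else 1 := by
  simp [sl, Pi.mulSingle_apply]

lemma sr_apply (a : V) (g : G) (b : V) : sr a g b = if b = a then (1, g) else 1 := by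
  simp [sr, Pi.mulSingle_apply]

lemma thin_empty [Infinite G] {X : Set G} (h : ∀ x, x ∉ X) : Thin X :=
  ⟨⊥, 1, 1, by rw [Subgroup.index_bot, Nat.card_eq_zero_of_infinite], fun x hx => absurd hx (h x)⟩

lemma thinL [Infinite G] (Hs : Subgroup (V → G × G)) (a : V) (hK : (Hs.comap (sl a)).index = 0)
    (m : G → V → G × G) (A C : G) (h1 : ∀ x, (m x a).1 = A * x * C)
    (h2 : ∀ x y, (m x a).2 = (m y a).2) (h3 : ∀ x y b, b ≠ a → m x b = m y b) :
    Thin {x | m x ∈ Hs} := by
  by_cases h : ∃ y, m y ∈ Hs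
  · obtain ⟨y, hy⟩ := h
    refine ⟨_, A, C * (A * y * C)⁻¹, hK, fun x hx => ?_⟩
    have e : sl a (A * x * (C * (A * y * C)⁻¹)) = m x * (m y)⁻¹ := by
      funext b
      rw [sl_apply]
      split_ifs with hb
      · subst hb
        refine Prod.ext ?_ ?_
        · simp [h1, mul_assoc]
        · simp [h2 x y]
      · simp [h3 x y b hb]
    rw [Subgroup.mem_comap, e]
    exact Hs.mul_mem hx (Hs.inv_mem hy)
  · exact thin_empty fun x hx => h ⟨x, hx⟩

lemma thinR [Infinite G] (Hs : Subgroup (V → G × G)) (a : V) (hK : (Hs.comap (sr a)).index = 0)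
    (m : G → V → G × G) (A C : G)
    (h1 : (∀ x, (m x a).2 = A * x * C) ∨ ∀ x, (m x a).2 = (A * x * C)⁻¹)
    (h2 : ∀ x y, (m x a).1 = (m y a).1) (h3 : ∀ x y b, b ≠ a → m x b = m y b) :
    Thin {x | m x ∈ Hs} := by
  by_cases h : ∃ y, m y ∈ Hs
  · obtain ⟨y, hy⟩ := h
    have e : ∀ x, (m x a).2 * ((m y a).2)⁻¹ ∈ Hs.comap (sr a) ↔ m x * (m y)⁻¹ ∈ Hs := fun x => by
      rw [Subgroup.mem_comap]
      refine Eq.to_iff (congrArg _ ?_)
      funext b
      rw [sr_apply]
      split_ifs with hb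
      · subst hb
        refine Prod.ext ?_ ?_
        · simp [h2 x y]
        · simp
      · simp [h3 x y b hb]
    rcases h1 with h1 | h1
    · refine ⟨_, A, C * (A * y * C)⁻¹, hK, fun x hx => ?_⟩
      have := (e x).2 (Hs.mul_mem hx (Hs.inv_mem hy))
      rwa [h1, h1, mul_assoc] at this
    · refine ⟨_, (A * y * C)⁻¹ * A, C, hK, fun x hx => ?_⟩
      have := Subgroup.inv_mem _ ((e x).2 (Hs.mul_mem hx (Hs.inv_mem hy)))
      rw [h1, h1] at this
      simpa only [mul_inv_rev, inv_inv, mul_assoc] using this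
  · exact thin_empty fun x hx => h ⟨x, hx⟩

lemma right_index [Finite V] (hG : ∀ g : G, IsOfFinOrder g) (J : Set (V → G)) (a : V)
    (h : ((stab hG J).comap (sl a)).index = 0) : ((stab hG J).comap (sr a)).index = 0 := by
  by_contra h0
  have : ((stab hG J).comap (sr a)).FiniteIndex := ⟨h0⟩
  have hle : ((stab hG J).comap (sr a)).normalCore ≤ (stab hG J).comap (sl a) := by
    intro g hg u hu
    have h1 : ((u a)⁻¹ * g⁻¹ * u a) ∈ (stab hG J).comap (sr a) :=
      Subgroup.normalCore_le _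
        ((Subgroup.normalCore_normal _).conj_mem' _ (Subgroup.inv_mem _ hg) (u a))
    have e : act (sl a g) u = act (sr a ((u a)⁻¹ * g⁻¹ * u a)) u := by
      funext b
      simp only [act, sl_apply, sr_apply]
      split_ifs with hb
      · subst hb; simp [mul_assoc]
      · rfl
    rw [e]
    exact h1 u hu
  exact (Subgroup.finiteIndex_of_le hle).1 h

section loops

variable (ω : List V) (H : Set (List V → List V)) (D B : Set V) (e : V → G) (f : V → V)

/-- the valuation equal to `u` on the fixed letters and to `q` elsewhere -/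
noncomputable def mix (q u : V → G) : V → G := fun a => if a ∈ B ∧ f a = a then u a else q a

/-- the slice of the admissible valuations -/
def sli (q : V → G) : Set (V → G) := {u | Adm ω H D (mix B f q u)}

/-- the multiplier of a loop -/
noncomputable def mu (ψ : List V → List V) (q : V → G) : V → G × G := fun a =>
  if a ∈ B ∧ f a = a then (val q (pre a (ψ [a])), (val q (suf a (ψ [a])))⁻¹) else 1

/-- the constants of a loop -/
def kap (ψ : List V → List V) : V → G := fun a => val e (ψ [a])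

variable {ω H D B e f}

lemma adm_congr {v v' : V → G} (h : ∀ a ∈ D, v a = v' a) (hv : Adm ω H D v) : Adm ω H D v' :=
  fun u hu hD => val_congr (fun a ha => h a (hD a ha)) ▸ hv u hu hD

lemma loop_fix (hBD : B ⊆ D) {ψ : List V → List V} (hψ : IsLoop H D B e f ψ) {a : V}
    (ha : a ∈ B ∧ f a = a) {α β : List V} (h : ψ [a] = α ++ a :: β) :
    pre a (ψ [a]) = α ∧ suf a (ψ [a]) = β ∧
      (∀ b ∈ α, b ∈ D ∧ ¬ (b ∈ B ∧ f b = b)) ∧ ∀ b ∈ β, b ∈ D ∧ ¬ (b ∈ B ∧ f b = b) := by
  have h1 := hψ.2.2.2 a (hBD ha.1) a ha.1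
  rw [if_pos ha.2, h] at h1
  obtain ⟨n1, n2⟩ := once h1
  have key : ∀ b ∈ ψ [a], b ≠ a → b ∈ D ∧ ¬ (b ∈ B ∧ f b = b) := fun b hb hba =>
    ⟨hψ.2.1 a (hBD ha.1) b hb, fun hP => by
      have := hψ.2.2.2 a (hBD ha.1) b hP.1
      rw [if_neg (by rw [hP.2]; exact hba), List.count_eq_zero] at this
      exact this hb⟩
  refine ⟨by rw [h]; exact (pre_suf β n1).1, by rw [h]; exact (pre_suf β n1).2,
    fun b hb => key b (by rw [h]; simp [hb]) fun e => n1 (e ▸ hb),
    fun b hb => key b (by rw [h]; simp [hb]) fun e => n2 (e ▸ hb)⟩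

lemma loop_split (hBD : B ⊆ D) {ψ : List V → List V} (hψ : IsLoop H D B e f ψ) {a : V}
    (ha : a ∈ B ∧ f a = a) : ∃ α β, ψ [a] = α ++ a :: β := by
  have h1 := hψ.2.2.2 a (hBD ha.1) a ha.1
  rw [if_pos ha.2] at h1
  obtain ⟨α, β, h, -⟩ := split_once h1
  exact ⟨α, β, h⟩

lemma mu_congr (hBD : B ⊆ D) {ψ : List V → List V} (hψ : IsLoop H D B e f ψ) {q q' : V → G}
    (h : ∀ b ∈ D, ¬ (b ∈ B ∧ f b = b) → q b = q' b) : mu B f ψ q = mu B f ψ q' := by
  funext a
  unfold mu
  split_ifs with ha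
  · obtain ⟨α, β, hs⟩ := loop_split hBD hψ ha
    obtain ⟨e1, e2, h1, h2⟩ := loop_fix hBD hψ ha hs
    rw [e1, e2, val_congr fun b hb => h b (h1 b hb).1 (h1 b hb).2,
      val_congr fun b hb => h b (h2 b hb).1 (h2 b hb).2]
  · rfl

lemma loop_map (hH : ∀ h ∈ H, SwA.LHom h) (hBD : B ⊆ D) (hf : ∀ b ∈ B, f b ∈ B ∧ f (f b) = f b)
    {ψ : List V → List V} (hψ : IsLoop H D B e f ψ) {q : V → G} (hq : ∀ a ∈ D, a ∉ B → q a = e a)
    {u : V → G} (hu : u ∈ sli ω H D B f q) :
    act (mu B f ψ q) u ∈ sli ω H D B f (kap e ψ) := by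
  obtain ⟨l, hl, hψl⟩ := hψ.1
  have hhom : SwA.LHom ψ := hψl ▸ SwA.LHom.app fun h hh => hH h (hl h hh)
  have hw : Adm ω H D fun a => val (mix B f q u) (ψ [a]) := by
    rintro u' ⟨l', hl', rfl⟩ hD
    rw [val_hom hhom]
    refine hu _ ⟨l ++ l', fun h hh => (List.mem_append.1 hh).elim (hl h) (hl' h), ?_⟩ fun b hb => ?_
    · rw [SwA.app_append, hψl]
    · obtain ⟨a, ha, hb⟩ := mem_hom hhom hb
      exact hψ.2.1 a (hD a ha) b hb
  refine adm_congr (fun a ha => ?_) hw
  by_cases hP : a ∈ B ∧ f a = a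
  · obtain ⟨α, β, hs⟩ := loop_split hBD hψ hP
    obtain ⟨e1, e2, h1, h2⟩ := loop_fix hBD hψ hP hs
    have a1 : val (mix B f q u) α = val q α := val_congr fun b hb => if_neg (h1 b hb).2
    have a2 : val (mix B f q u) β = val q β := val_congr fun b hb => if_neg (h2 b hb).2
    simp only [mix, act, mu, if_pos hP, e1, e2, inv_inv]
    rw [hs, val_append, val_cons, mul_assoc]
    change val (mix B f q u) α * (mix B f q u a * val (mix B f q u) β) = _
    rw [a1, a2, mix, if_pos hP]
  · simp only [mix, if_neg hP, kap]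
    refine val_congr fun b hb => ?_
    have hbB : b ∉ B := fun hbB => by
      have := hψ.2.2.2 a ha b hbB
      rw [if_neg fun h : f b = a => hP (h ▸ hf b hbB), List.count_eq_zero] at this
      exact this hb
    rw [mix, if_neg fun h : b ∈ B ∧ f b = b => hbB h.1]
    exact hq b (hψ.2.1 a ha b hb) hbB

end loops

end ALG

open ALG in
theorem p_ALG : S_ALG := by
  intro V G _ _ _ hG ω H hH D B e f
  by_cases hb : B ⊆ D ∧ (∀ b ∈ B, f b ∈ B ∧ f (f b) = f b) ∧ ∃ ψ, IsLoop H D B e f ψ
  swap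
  · exact ⟨⊤, fun _ => False, inferInstance, fun _ _ _ => thin_empty fun _ h => h,
      fun _ _ _ _ => thin_empty fun _ h => h, fun h1 h2 ψ1 _ h3 => absurd ⟨h1, h2, ψ1, h3⟩ hb⟩
  obtain ⟨hBD, hf, ψ0, h0⟩ := hb
  set Hs := stab hG (sli ω H D B f (kap e ψ0)) with hHs
  have step : ∀ {ψ ψ' : List V → List V}, IsLoop H D B e f ψ → IsLoop H D B e f ψ' →
      ∀ u ∈ sli ω H D B f (kap e ψ'), act (mu B f ψ (kap e ψ')) u ∈ sli ω H D B f (kap e ψ) :=
    fun h h' u hu => loop_map hH hBD hf h h'.2.2.1 hu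
  have hx : ∀ {ψ : List V → List V}, IsLoop H D B e f ψ →
      mu B f ψ0 (kap e ψ) * mu B f ψ (kap e ψ0) ∈ Hs := fun h u hu => by
    rw [act_mul]; exact step h0 h _ (step h h0 u hu)
  by_cases hl : ∃ a, (a ∈ B ∧ f a = a) ∧ (Hs.comap (sl a)).FiniteIndex
  · obtain ⟨a, ha, hfi⟩ := hl
    refine ⟨(Hs.comap (sl a)).normalCore, fun _ => False, inferInstance,
      fun _ _ _ => thin_empty fun _ h => h, fun _ _ _ _ => thin_empty fun _ h => h,
      fun _ _ ψ1 ψ2 _ h2 v hv hv1 hv2 u hu huD hu1 huN _ _ _ => ?_⟩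
    have hvq : ∀ b ∈ D, ¬ (b ∈ B ∧ f b = b) → v b = kap e ψ2 b := fun b hbD hP => by
      by_cases hbB : b ∈ B
      · exact hv2 b hbB fun h => hP ⟨hbB, h⟩
      · rw [hv1 b hbD hbB]; exact (h2.2.2.1 b hbD hbB).symm
    have hvJ : v ∈ sli ω H D B f (kap e ψ2) := adm_congr (fun b hbD => by
      unfold mix
      split_ifs with hP
      · rfl
      · exact hvq b hbD hP) hv
    obtain ⟨α, β, rfl, n1, n2⟩ := split_once (hu1 a ha.1)
    set m0 := mu B f ψ0 (kap e ψ2) with hm0
    set g := (val v α)⁻¹ * (val v (α ++ a :: β))⁻¹ * val v α with hg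
    have hN := Subgroup.normalCore_normal (Hs.comap (sl a))
    have g1 : g ∈ (Hs.comap (sl a)).normalCore := hN.conj_mem' _ (Subgroup.inv_mem _ huN) _
    have g2 : sl a ((m0 a).1 * g * ((m0 a).1)⁻¹) ∈ Hs :=
      Subgroup.mem_comap.1 (Subgroup.normalCore_le _ (hN.conj_mem g g1 (m0 a).1))
    have z1 := g2 _ (step h0 h2 v hvJ)
    have z2 := step h2 h0 _ (Hs.inv_mem (hx h2) _ z1)
    rw [← act_mul, ← act_mul, ← act_mul, ← hm0] at z2
    have e1 : mu B f ψ2 (kap e ψ0) * (m0 * mu B f ψ2 (kap e ψ0))⁻¹ *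
        sl a ((m0 a).1 * g * ((m0 a).1)⁻¹) * m0 = sl a g := by
      rw [mul_inv_rev, mul_inv_cancel_left]
      funext b
      simp only [Pi.mul_apply, Pi.inv_apply, sl_apply]
      split_ifs with hb
      · subst hb
        refine Prod.ext ?_ ?_ <;> simp [mul_assoc]
      · simp
    rw [e1] at z2
    have z3 : Adm ω H D (Function.update v a (g * v a)) := adm_congr (fun b hbD => by
      simp only [mix, act, sl_apply]
      by_cases hba : b = a
      · subst hba; simp [ha]
      · rw [Function.update_of_ne hba, if_neg hba]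
        split_ifs with hP
        · simp
        · exact (hvq b hbD hP).symm) z2
    refine z3 _ hu huD ?_
    rw [val_append, val_cons, val_update0 v n1, val_update0 v n2, Function.update_self, hg,
      val_append, val_cons]
    group
  have hK : ∀ a, (a ∈ B ∧ f a = a) → (Hs.comap (sl a)).index = 0 := fun a ha => by
    by_contra h
    exact hl ⟨a, ha, ⟨h⟩⟩
  let q1 : (V → G × G) → V → G := fun η a => if a ∈ B then (η a).1 else e a
  let q2 : (V → G × G) → V → G := fun η a => if a ∈ B then (η a).2 else e a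
  let eP : (V → G × G) → V → G × G := fun η a => if a ∈ B ∧ f a = a then η a else 1
  have mu_fix : ∀ (η : V → G × G) (j : V) (y : G × G), (j ∈ B ∧ f j = j) →
      mu B f ψ0 (q1 (Function.update η j y)) = mu B f ψ0 (q1 η) ∧
      mu B f ψ0 (q2 (Function.update η j y)) = mu B f ψ0 (q2 η) := fun η j y hj =>
    ⟨mu_congr hBD h0 fun b _ hP => by
      simp only [q1, Function.update_of_ne (show b ≠ j from fun h => hP (h ▸ hj))],
    mu_congr hBD h0 fun b _ hP => by
      simp only [q2, Function.update_of_ne (show b ≠ j from fun h => hP (h ▸ hj))]⟩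
  refine ⟨⊤, fun η => mu B f ψ0 (q1 η) * eP η * (mu B f ψ0 (q2 η))⁻¹ ∈ Hs, inferInstance,
    fun j η hj => ?_, fun j η hj hfj => ?_,
    fun _ _ ψ1 ψ2 h1 h2 v _ hv1 hv2 _ _ _ _ _ η hη1 hη2 => ?_⟩
  · by_cases hfj : f j = j
    · simp only [(mu_fix η j _ ⟨hj, hfj⟩).1, (mu_fix η j _ ⟨hj, hfj⟩).2]
      refine thinL Hs j (hK j ⟨hj, hfj⟩) _ (mu B f ψ0 (q1 η) j).1 ((mu B f ψ0 (q2 η) j).1)⁻¹
        (fun x => ?_) (fun x y => ?_) fun x y b hb => ?_
      · simp [eP, hj, hfj]
      · simp [eP, hj, hfj]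
      · simp [eP, Function.update_of_ne hb]
    · have e1 : ∀ x, q1 (Function.update η j (x, (η j).2)) = Function.update (q1 η) j x :=
        fun x => funext fun b => by
          by_cases hb : b = j
          · subst hb; simp [q1, hj]
          · simp [q1, Function.update_of_ne hb]
      have e2 : ∀ x, q2 (Function.update η j (x, (η j).2)) = q2 η := fun x => funext fun b => by
        by_cases hb : b = j
        · subst hb; simp [q2]
        · simp [q2, Function.update_of_ne hb]
      have e3 : ∀ x, eP (Function.update η j (x, (η j).2)) = eP η := fun x => funext fun b => by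
        by_cases hb : b = j
        · subst hb; simp [eP, hfj]
        · simp [eP, Function.update_of_ne hb]
      simp only [e1, e2, e3, mul_assoc]
      set r := eP η * (mu B f ψ0 (q2 η))⁻¹ with hr
      have hP := hf j hj
      obtain ⟨α, β, hs⟩ := loop_split hBD h0 hP
      obtain ⟨s1, s2, -, -⟩ := loop_fix hBD h0 hP hs
      have hc := h0.2.2.2 (f j) (hBD hP.1) j hj
      rw [if_pos rfl, hs, List.count_append, List.count_cons_of_ne hfj] at hc
      have hoth : ∀ x y b, b ≠ f j → (mu B f ψ0 (Function.update (q1 η) j x) * r) b =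
          (mu B f ψ0 (Function.update (q1 η) j y) * r) b := fun x y b hb => by
        simp only [Pi.mul_apply, mu]
        split_ifs with hPb
        · obtain ⟨α', β', hs'⟩ := loop_split hBD h0 hPb
          obtain ⟨t1, t2, -, -⟩ := loop_fix hBD h0 hPb hs'
          have hc' := h0.2.2.2 b (hBD hPb.1) j hj
          rw [if_neg hb.symm, List.count_eq_zero, hs'] at hc'
          have m1 : j ∉ α' := fun h => hc' (by simp [h])
          have m2 : j ∉ β' := fun h => hc' (by simp [h])
          simp only [t1, t2, val_update0 _ m1, val_update0 _ m2]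
        · rfl
      rcases Nat.eq_zero_or_pos (α.count j) with c0 | c0
      · obtain ⟨A, C, hAC⟩ := val_update1 (q1 η) (show β.count j = 1 by omega)
        refine thinR Hs (f j) (right_index hG _ _ (hK _ hP)) _ (((r (f j)).2)⁻¹ * A) C
          (Or.inr fun x => ?_) (fun x y => ?_) hoth
        · simp [mu, hP, s2, hAC, mul_assoc]
        · simp [mu, hP, s1, val_update0 _ (List.count_eq_zero.1 c0)]
      · obtain ⟨A, C, hAC⟩ := val_update1 (q1 η) (show α.count j = 1 by omega)
        refine thinL Hs (f j) (hK _ hP) _ A (C * (r (f j)).1) (fun x => ?_) (fun x y => ?_) hoth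
        · simp [mu, hP, s1, hAC, mul_assoc]
        · simp [mu, hP, s2, val_update0 _ (List.count_eq_zero.1 (show β.count j = 0 by omega))]
  · simp only [(mu_fix η j _ ⟨hj, hfj⟩).1, (mu_fix η j _ ⟨hj, hfj⟩).2]
    refine thinR Hs j (right_index hG _ _ (hK j ⟨hj, hfj⟩)) _ (mu B f ψ0 (q1 η) j).2
      ((mu B f ψ0 (q2 η) j).2)⁻¹ (Or.inl fun x => ?_) (fun x y => ?_) fun x y b hb => ?_
    · simp [eP, hj, hfj]
    · simp [eP, hj, hfj]
    · simp [eP, Function.update_of_ne hb]
  · have hvq : ∀ b ∈ D, ¬ (b ∈ B ∧ f b = b) → v b = kap e ψ2 b := fun b hbD hP => by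
      by_cases hbB : b ∈ B
      · exact hv2 b hbB fun h => hP ⟨hbB, h⟩
      · rw [hv1 b hbD hbB]; exact (h2.2.2.1 b hbD hbB).symm
    have e1 : mu B f ψ0 (q1 η) = mu B f ψ0 (kap e ψ1) := mu_congr hBD h0 fun b hbD hP => by
      by_cases hbB : b ∈ B
      · simp only [q1, if_pos hbB, hη2 b hbB fun h => hP ⟨hbB, h⟩, kap]
      · simp only [q1, if_neg hbB]; exact (h1.2.2.1 b hbD hbB).symm
    have e2 : mu B f ψ0 (q2 η) = mu B f ψ0 (kap e ψ2) := mu_congr hBD h0 fun b hbD hP => by
      by_cases hbB : b ∈ B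
      · simp only [q2, if_pos hbB, hη2 b hbB fun h => hP ⟨hbB, h⟩]
        exact hvq b hbD hP
      · simp only [q2, if_neg hbB]; exact (h2.2.2.1 b hbD hbB).symm
    have e3 : eP η = mu B f ψ1 (kap e ψ2) := funext fun a => by
      simp only [eP, mu]
      split_ifs with hP
      · obtain ⟨α, β, hs, hη⟩ := hη1 a hP.1 hP.2
        obtain ⟨s1, s2, t1, t2⟩ := loop_fix hBD h1 hP hs
        rw [hη, s1, s2, val_congr fun b hb => hvq b (t1 b hb).1 (t1 b hb).2,
          val_congr fun b hb => hvq b (t2 b hb).1 (t2 b hb).2]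
      · rfl
    have hy : mu B f ψ0 (kap e ψ1) * mu B f ψ1 (kap e ψ2) * mu B f ψ2 (kap e ψ0) ∈ Hs :=
      fun u hu => by
        rw [act_mul, act_mul]; exact step h0 h1 _ (step h1 h2 _ (step h2 h0 u hu))
    have := Hs.mul_mem hy (Hs.inv_mem (hx h2))
    rw [mul_inv_rev, mul_assoc, mul_inv_cancel_left] at this
    simpa only [e1, e2, e3] using this

end Pool.Agent.P.MP_f04817_lc.Co
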