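import Pool.Agent.P.MP_f04817_lc.Co.Iface

/-! A torsion group with an EDT0L co-word problem is finite. -/

set_option autoImplicit false

namespace Pool.Agent.P.MP_f04817_lc.Co

open scoped Classical

namespace MAIN

open SwA

theorem el {A G : Type} [Group G] {π : A → G} {T : Set G} (h : Ed.Sys T π) :
    Finite A ∧ EL fun w : List A => (w.map π).prod ∈ T := by
  obtain ⟨V, hV, ι, ω, H, hι, hH, hL⟩ := h
  refine ⟨Finite.of_injective ι hι, V, hV, ι, ω, (fun h u => u.flatMap h) '' H, hι, hH.image _,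
    ?_, fun w => (hL w).trans ⟨?_, ?_⟩⟩
  · rintro _ ⟨h, -, rfl⟩
    exact ⟨rfl, fun a b => List.flatMap_append⟩
  · rintro ⟨ts, h1, h2⟩
    refine ⟨(ts.map fun h u => u.flatMap h).reverse, fun h hh => ?_, ?_⟩
    · obtain ⟨t, ht, rfl⟩ := List.mem_map.1 (List.mem_reverse.1 hh)
      exact ⟨t, h1 t ht, rfl⟩
    · rw [← h2, app, List.foldr_reverse, List.foldl_map, Ed.run]
  · rintro ⟨l, h1, h2⟩
    rw [← h2]
    clear h2
    induction l with
    | nil => exact ⟨[], by simp, rfl⟩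
    | cons h l ih =>
      obtain ⟨ts, k1, k2⟩ := ih fun g hg => h1 g (List.mem_cons_of_mem _ hg)
      obtain ⟨t, ht, rfl⟩ := h1 h List.mem_cons_self
      refine ⟨ts ++ [t], fun g hg => ?_, ?_⟩
      · rcases List.mem_append.1 hg with hg | hg
        · exact k1 g hg
        · rwa [List.mem_singleton.1 hg]
      · rw [Ed.run, List.foldl_append]
        exact congrArg (List.flatMap t) k2

end MAIN

theorem p_MAIN (h1 : S_SWB) (h2 : S_TAIL) : S_MAIN := by
  intro A G _ hT π a b hab hπ hinv hcl h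
  by_contra hG
  have : Infinite G := not_finite_iff_infinite.1 hG
  obtain ⟨_, hE⟩ := MAIN.el h
  have : Nonempty A := ⟨a⟩
  have := Fintype.ofFinite A
  let S0 : Finset G := insert 1 (Finset.univ.image π)
  have m0 : ∀ g, g ∈ S0 ↔ g = 1 ∨ ∃ y, π y = g := fun g => by simp [S0]
  have i0 : ∀ g ∈ S0, g⁻¹ ∈ S0 := fun g hg => by
    rcases (m0 g).1 hg with rfl | ⟨y, rfl⟩
    · exact (m0 _).2 (.inl inv_one)
    · exact (m0 _).2 (.inr (hinv y))
  let S : Finset G := insert (π a ^ 2)⁻¹ (insert (π a ^ 2) S0)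
  have m1 : ∀ g ∈ S0, g ∈ S := fun g hg => Finset.mem_insert_of_mem (Finset.mem_insert_of_mem hg)
  have m2 : π a ^ 2 ∈ S := Finset.mem_insert_of_mem (Finset.mem_insert_self _ _)
  obtain ⟨k, K, D, Y, N, hN, hY⟩ := h1 A G hT π S (m1 1 ((m0 1).2 (.inl rfl))) (fun g hg => by
    rcases Finset.mem_insert.1 hg with rfl | hg
    · rwa [inv_inv]
    · rcases Finset.mem_insert.1 hg with rfl | hg
      · exact Finset.mem_insert_self _ _
      · exact m1 _ (i0 g hg)) hE
  obtain ⟨s, hs, hs1⟩ : ∃ s ∈ N, s ≠ 1 := by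
    by_contra c
    have e : N = ⊥ := (Subgroup.eq_bot_iff_forall N).2 fun s hs => by_contra fun d => c ⟨s, hs, d⟩
    exact hN.index_ne_zero (by rw [e, Subgroup.index_bot, Nat.card_eq_zero_of_infinite])
  obtain ⟨z, n, hz, hn, hW⟩ := h2 G S0 ((m0 1).2 (.inl rfl)) i0 (top_le_iff.1 (hcl.ge.trans
    (Submonoid.closure_mono fun g hg => (m0 g).2 (.inr hg)))) k K D Y s
  have hx : ∀ i, ∃ o : Option A, i < n → Ed.opt π o = (z i)⁻¹ * z (i + 1) := fun i => by
    by_cases hi : i < n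
    · rcases (m0 _).1 (hz.2 i hi) with e | ⟨y, e⟩
      · exact ⟨none, fun _ => e.symm⟩
      · exact ⟨some y, fun _ => e⟩
    · exact ⟨none, fun c => absurd c hi⟩
  choose x hx using hx
  have hq : ∀ i ≤ n, Ed.Q (Ed.opt π) x i = z i := fun i hi => by
    induction i with
    | zero => exact hz.1.symm
    | succ i ih => rw [Ed.Q_succ, ih (by omega), hx i hi, mul_inv_cancel_left]
  obtain ⟨pos, ρ, e, W, k1, k2, k3, k4, k5, k6, k7⟩ := Ed.enc_symm π a b hab hπ x
  have hρ : Monotone ρ := monotone_nat_of_le_succ k2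
  refine not_nonempty_iff.2 hW (hY z n ⟨hz.1, fun i hi => m1 _ (hz.2 i hi)⟩ (hn ▸ hs) (hn ▸ hs1) W
    (pos n) (Ed.Q π W) ρ rfl (fun _ => rfl) ?_ (fun y hy => ?_)
    ⟨rfl, fun _ => rfl, rfl, hρ, (k4 n).1, k1, k3, fun _ _ => Finset.mem_singleton.2 rfl, k7⟩)
  · rw [k6, (k4 n).1, (k4 n).2, hq n le_rfl]
    simp
  · rw [k6, hq _ ((hρ hy).trans (k4 n).1.le), inv_mul_cancel_left]
    rcases (by have := k5 y; omega : e y = 0 ∨ e y = 1 ∨ e y = 2) with c | c | c <;> rw [c]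
    · exact m1 _ ((m0 _).2 (.inl (pow_zero _)))
    · exact m1 _ ((m0 _).2 (.inr ⟨a, (pow_one _).symm⟩))
    · exact m2

end Pool.Agent.P.MP_f04817_lc.Co
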