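import Pool.Agent.P.MP_f04817_lc.Co.TWALK
import Pool.Agent.P.MP_f04817_lc.Co.TSPREAD
import Pool.Agent.P.MP_f04817_lc.Co.TLIP
import Pool.Agent.P.MP_f04817_lc.Co.TCHAIN
import Pool.Agent.P.MP_f04817_lc.Co.TTV
import Pool.Agent.P.MP_f04817_lc.Co.TRAM
import Pool.Agent.P.MP_f04817_lc.Co.TSCEN
import Pool.Agent.P.MP_f04817_lc.Co.TNEST
import Pool.Agent.P.MP_f04817_lc.Co.TCNT
import Pool.Agent.P.MP_f04817_lc.Co.TBAD
import Pool.Agent.P.MP_f04817_lc.Co.TCOARSE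
import Pool.Agent.P.MP_f04817_lc.Co.TNOSW
import Pool.Agent.P.MP_f04817_lc.Co.TTAIL
import Pool.Agent.P.MP_f04817_lc.Co.TALG
import Pool.Agent.P.MP_f04817_lc.Co.TSWB
import Pool.Agent.P.MP_f04817_lc.Co.TMAIN

/-! The steps put together. -/

set_option autoImplicit false

namespace Pool.Agent.P.MP_f04817_lc.Co

theorem a_main : S_MAIN :=
  p_MAIN (p_SWB p_ALG) (p_TAIL (p_NOSW (p_SPREAD p_WALK) (p_BAD p_CNT)
    (p_COARSE (p_TV (p_CHAIN p_LIP)) p_RAM p_SCEN p_NEST)))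

end Pool.Agent.P.MP_f04817_lc.Co
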