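import Pool.Agent.P.MP_f04817_lc.Nb5
import Pool.Agent.P.MP_f04817_lc.SwA2

/-! Definitions and the statements of the steps of the proof that a finitely generated torsion
group with an EDT0L co-word problem is finite. -/

set_option autoImplicit false

namespace Pool.Agent.P.MP_f04817_lc.Co

open scoped Classical

/-- a set inside a two-sided coset of a subgroup of infinite index -/
def Thin {G : Type} [Group G] (X : Set G) : Prop :=
  ∃ (K : Subgroup G) (a b : G), K.index = 0 ∧ ∀ x ∈ X, a * x * b ∈ K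

/-- a path from `1` with steps in `S` -/
def Path {G : Type} [Group G] (S : Set G) (z : ℕ → G) (n : ℕ) : Prop :=
  z 0 = 1 ∧ ∀ i < n, (z i)⁻¹ * z (i + 1) ∈ S

/-- the pair attached to a slot from the values `o` of its ends at the later time and the values
`i` of its ends at the earlier time -/
noncomputable def eta {G : Type} [Group G] (p : Prop) (o i : G × G) : G × G :=
  if p then (o.1⁻¹ * i.1, o.2⁻¹ * i.2) else (o.1⁻¹ * o.2, i.1⁻¹ * i.2)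

/-- finitely many relations with thin sections -/
structure Rels (G : Type) [Group G] (k : ℕ) where
  C : Type
  fin : Fintype C
  Bg : C → Fin k → Prop
  Pm : C → Fin k → Prop
  Rel : C → (Fin k → G × G) → Prop
  thin1 : ∀ c j η, Bg c j → Thin {x | Rel c (Function.update η j (x, (η j).2))}
  thin2 : ∀ c j η, Pm c j → Thin {x | Rel c (Function.update η j ((η j).1, x))}

/-- the arcs of a sweep without group data -/
abbrev Arc (k K n : ℕ) : Type := Sweep k K ({1} : Finset Unit) (fun _ => 1) n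

/-- a sweep whose monochromatic triples of times satisfy the relations -/
structure Sw {G : Type} [Group G] {k : ℕ} (D : Rels G k) (K : ℕ) (Y : Finset G) (z : ℕ → G)
    (n : ℕ) where
  W : Arc k K n
  y : ℕ → Fin k → G × G
  hy : ∀ t j, (y t j).1 ∈ Y ∧ (y t j).2 ∈ Y
  col : ℕ → ℕ → D.C
  tri : ∀ t t' t'', t < t' → t' < t'' → t'' ≤ W.T → col t t' = col t' t'' → col t t'' = col t' t'' →
    D.Rel (col t' t'') (fun j => eta (D.Pm (col t' t'') j)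
      (z (W.st t'' j).1 * (y t'' j).1, z (W.st t'' j).2.1 * (y t'' j).2)
      (z (W.st t' j).1 * (y t' j).1, z (W.st t' j).2.1 * (y t' j).2)) ∧
    (∀ j, (W.st t'' j).1 < (W.st t'' j).2.1 → D.Bg (col t' t'') j) ∧
    ∀ j, D.Pm (col t' t'') j → (W.st t'' j).1 ≤ (W.st t' j).1 ∧ (W.st t' j).2.1 ≤ (W.st t'' j).2.1

/-- the values at the two ends of a coarse entry -/
def ze {G : Type} [Group G] (z : ℕ → G) (q : Ent G) : G × G :=
  (z q.1 * q.2.2.1, z q.2.1 * q.2.2.2)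

/-- a coarse equation: a node, a colour and two entries for each slot -/
abbrev CE {G : Type} [Group G] {k : ℕ} (D : Rels G k) : Type :=
  ℕ × D.C × (Fin k → Ent G × Ent G)

/-- the coarse equation holds along `z` -/
def Eqn {G : Type} [Group G] {k : ℕ} (D : Rels G k) (z : ℕ → G) (σ : CE D) : Prop :=
  D.Rel σ.2.1 fun j => eta (D.Pm σ.2.1 j) (ze z (σ.2.2 j).1) (ze z (σ.2.2 j).2)

/-- both ends are away from the node `p` -/
def Fr2 {G : Type} (M L p : ℕ) (q : Ent G) : Prop := Free M L p q.1 ∧ Free M L p q.2.1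

/-- a chain of coarse equations, each with a node that is new and seen once -/
def Valid2 {G : Type} [Group G] {k b : ℕ} (D : Rels G k) (M L n : ℕ) (σ : Fin b → CE D) : Prop :=
  (∀ i, 1 ≤ (σ i).1 ∧ (σ i).1 ≤ n ∧ (∀ j, Fr2 M L (σ i).1 ((σ i).2.2 j).2) ∧
    ∃ j, D.Bg (σ i).2.1 j ∧
      ((((σ i).2.2 j).1.1 = ((σ i).1 + 1) * M ∧ Free M L (σ i).1 ((σ i).2.2 j).1.2.1) ∨
        (Free M L (σ i).1 ((σ i).2.2 j).1.1 ∧ ((σ i).2.2 j).1.2.1 = ((σ i).1 + 1) * M)) ∧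
      ∀ j', j' ≠ j → Fr2 M L (σ i).1 ((σ i).2.2 j').1) ∧
  ∀ i i', i < i' → ∀ j, Fr2 M L (σ i').1 ((σ i).2.2 j).1 ∧ Fr2 M L (σ i').1 ((σ i).2.2 j).2

/-- the space of the choices -/
noncomputable def Om2 (R : ℕ → ℕ) (Mk : ℕ → Finset ℕ) (m n : ℕ) : Finset (ℕ × ℕ → ℕ) :=
  (Om R m n).filter fun r => ∀ q ∈ Finset.range (m + 1) ×ˢ Finset.range (n + 1), r q ∈ Mk q.1

/-- the coarse entries with places in `U` -/
noncomputable def En2 {G : Type} [Group G] (U : Finset ℕ) (Y F : Finset G) : Finset (Ent G) :=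
  insert 0 U ×ˢ insert 0 U ×ˢ Finset.image₂ (· * ·) F Y ×ˢ Finset.image₂ (· * ·) F Y

/-- the chains of coarse equations with places in `U` -/
noncomputable def Sc2 {G : Type} [Group G] {k b : ℕ} (D : Rels G k) (M : ℕ) (U : Fin b → Finset ℕ)
    (Y F : Finset G) : Finset (Fin b → CE D) :=
  Fintype.piFinset fun i => ((U i).image fun x => x / M - 1) ×ˢ @Finset.univ _ D.fin ×ˢ
    Fintype.piFinset fun _ => En2 (U i) Y F ×ˢ En2 (U i) Y F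

/-- the value of a word under a valuation of the letters -/
def val {V G : Type} [Group G] (v : V → G) (u : List V) : G := (u.map v).prod

/-- reachable forms -/
def Reach {V : Type} (ω : List V) (H : Set (List V → List V)) (u : List V) : Prop :=
  ∃ l, (∀ h ∈ l, h ∈ H) ∧ SwA.app l ω = u

/-- admissible valuations -/
def Adm {V G : Type} [Group G] (ω : List V) (H : Set (List V → List V)) (D : Set V)
    (v : V → G) : Prop :=
  ∀ u, Reach ω H u → (∀ a ∈ u, a ∈ D) → val v u ≠ 1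

/-- a composition of tables that returns to the class `(D, B, e)` with parent map `f` -/
def IsLoop {V G : Type} [Group G] (H : Set (List V → List V)) (D B : Set V) (e : V → G)
    (f : V → V) (ψ : List V → List V) : Prop :=
  (∃ l, (∀ h ∈ l, h ∈ H) ∧ ψ = SwA.app l) ∧ (∀ a ∈ D, ∀ b ∈ ψ [a], b ∈ D) ∧
    (∀ a ∈ D, a ∉ B → val e (ψ [a]) = e a) ∧
    ∀ a ∈ D, ∀ b ∈ B, (ψ [a]).count b = if f b = a then 1 else 0

-- deps:
def S_WALK : Prop :=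
  ∀ (G : Type) [Group G] (S : Finset G), 1 ∈ S → Submonoid.closure (S : Set G) = ⊤ → ∀ Q : ℕ,
    ∃ (ι : Type) (_ : Fintype ι) (_ : Nonempty ι) (g : ι → G), ∀ X : Set G, Thin X →
      Q * (Finset.univ.filter fun i => g i ∈ X).card ≤ Fintype.card ι

-- deps: WALK
def S_SPREAD : Prop :=
  ∀ (G : Type) [Group G] (S : Finset G), 1 ∈ S → Submonoid.closure (S : Set G) = ⊤ →
    ∃ γ : ℕ → G, γ 0 = 1 ∧ (∀ i, (γ i)⁻¹ * γ (i + 1) ∈ S) ∧ ∀ Q : ℕ, ∃ Mk : Finset ℕ,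
      Mk.Nonempty ∧ ∀ X : Set G, Thin X → Q * (Mk.filter fun v => γ v ∈ X).card ≤ Mk.card

-- deps:
def S_LIP : Prop :=
  ∀ M V : ℕ, ∃ F : Finset (ℕ → ℕ), F.card ≤ 3 ^ (M + V) ∧ ∀ τ : ℕ → ℕ,
    τ 0 + ∑ s ∈ Finset.range M, Nat.dist (τ s) (τ (s + 1)) ≤ V → ∃ σ ∈ F, ∀ s < M, σ s = τ s

-- deps: LIP
def S_CHAIN : Prop :=
  ∀ (N : Finset ℕ) (k β : ℕ), ∃ F : Finset (Fin β → Finset ℕ),
    F.card ≤ 3 ^ (N.card + (2 * k + 1) * β) ∧
    ∀ (P : Fin β → Fin k → ℕ → Prop),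
      (∀ i j x y w, x ≤ y → y ≤ w → P i j x → P i j w → P i j y) →
      (∀ i i', i ≤ i' → ∀ j x, P i j x → ∃ j', P i' j' x) →
      (fun i => N.filter fun x => ∃ j, P i j x) ∈ F

-- deps: CHAIN
def S_TV : Prop :=
  ∀ (N : Finset ℕ) (k β : ℕ), ∃ F : Finset (Fin β → Finset ℕ),
    F.card ≤ 9 ^ (N.card + (2 * k + 1) * β) ∧ (∀ A ∈ F, ∀ i, (A i).card ≤ 2 * k) ∧
    ∀ a b : Fin β → Fin k → ℕ,
      (∀ i j, a i j < b i j → a i j ∈ N ∧ b i j ∈ N) →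
      (∀ i j j', j ≠ j' → a i j < b i j → a i j' < b i j' → b i j ≤ a i j' ∨ b i j' ≤ a i j) →
      (∀ i i', i ≤ i' → ∀ j, a i j < b i j → ∃ j', a i' j' ≤ a i j ∧ b i j ≤ b i' j') →
      ∃ A ∈ F, ∀ i j, a i j < b i j → a i j ∈ A i ∧ b i j ∈ A i

-- deps:
def S_RAM : Prop :=
  ∀ (C : Type) [Finite C], ∃ R : ℕ, ∀ col : ℕ → ℕ → C,
    ∃ x y w, x < y ∧ y < w ∧ w < R ∧ col x y = col y w ∧ col x w = col y w

-- deps:
def S_SCEN : Prop :=
  ∀ (k K n Mp M L B β : ℕ) (W : Arc k K n), 0 < L → L ≤ M →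
    4 * k * (2 * k * β + 4 * k) + 4 * k < B → W.NoWin Mp M L B →
    ∃ (τ0 τ1 : ℕ) (θ p : Fin β → ℕ), τ0 ≤ W.T ∧ τ1 ≤ W.T ∧ StrictMono θ ∧
      (∀ i, θ i ≤ W.T ∧ 1 ≤ p i ∧ p i ≤ n) ∧
      (∀ i j, lam M L (W.st (θ i) j).1 ≠ lam M L (W.st (θ i) j).2.1 →
        lam M L (W.st (θ i) j).1 ∈ Nset M B (W.ends τ0 ∪ W.ends τ1) ∧
        lam M L (W.st (θ i) j).2.1 ∈ Nset M B (W.ends τ0 ∪ W.ends τ1)) ∧
      (∀ i, ∃ j, ((lam M L (W.st (θ i) j).1 = (p i + 1) * M ∧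
          Free M L (p i) (lam M L (W.st (θ i) j).2.1)) ∨
        (Free M L (p i) (lam M L (W.st (θ i) j).1) ∧
          lam M L (W.st (θ i) j).2.1 = (p i + 1) * M)) ∧
        ∀ j', j' ≠ j → Sweep.Off M L (p i) (W.st (θ i) j')) ∧
      ∀ i i', i < i' → ∀ j, Sweep.Off M L (p i') (W.st (θ i) j)

-- deps:
def S_NEST : Prop :=
  (∀ M L : ℕ, 0 < L → L ≤ M → Monotone (lam M L)) ∧
  ∀ (k K n : ℕ) (W : Arc k K n) (t t' : ℕ), t ≤ t' → t' ≤ W.T → ∀ j,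
    (W.st t j).1 < (W.st t j).2.1 →
      ∃ j', (W.st t' j').1 ≤ (W.st t j).1 ∧ (W.st t j).2.1 ≤ (W.st t' j').2.1

-- deps:
def S_CNT : Prop :=
  ∀ (ι : Type) [DecidableEq ι] (Ω : Finset (ι → ℕ)) (U : Finset ℕ) (Q β : ℕ) (p : Fin β → ι)
    (A : Fin β → (ι → ℕ) → Prop), U.Nonempty →
    (∀ i, ∀ r ∈ Ω, ∀ v ∈ U, Function.update r (p i) v ∈ Ω) → (∀ i, ∀ r ∈ Ω, r (p i) ∈ U) →
    (∀ i, ∀ r ∈ Ω, Q * (U.filter fun v => A i (Function.update r (p i) v)).card ≤ U.card) →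
    (∀ i i', i < i' → ∀ r v, A i r → A i (Function.update r (p i') v)) →
    (Ω.filter fun r => ∀ i, A i r).card * Q ^ β ≤ Ω.card

-- deps: CNT
def S_BAD : Prop :=
  ∀ (G : Type) [Group G] (k b : ℕ) (D : Rels G k) (M R : ℕ → ℕ) (h l m δ n Q : ℕ) (γ : ℕ → G)
    (Mk : ℕ → Finset ℕ) (σ : Fin b → CE D), Par M R h l m → δ ≤ m → (∀ d, ∀ v ∈ Mk d, v < R d) →
    (Mk δ).Nonempty →
    (∀ X : Set G, Thin X → Q * ((Mk δ).filter fun v => γ v ∈ X).card ≤ (Mk δ).card) →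
    Valid2 D (M δ) (2 * h) n σ →
    ((Om2 R Mk m n).filter fun r => ∀ i, Eqn D (ZZ γ M h l m r) (σ i)).card * Q ^ b ≤
      (Om2 R Mk m n).card

-- deps: TV RAM SCEN NEST
def S_COARSE : Prop :=
  ∀ (G : Type) [Group G] (k : ℕ) (D : Rels G k),
    ∃ (R0 : ℕ) (Φ : Finset ℕ → (b : ℕ) → Finset (Fin b → Finset ℕ)),
      (∀ N b, (Φ N b).card ≤ 9 ^ (N.card + (2 * k + 1) * (R0 * b))) ∧
      (∀ N b, ∀ U ∈ Φ N b, ∀ i, (U i).card ≤ 2 * k * R0) ∧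
      ∀ (M R : ℕ → ℕ) (h l m δ n K b B Mp : ℕ) (γ : ℕ → G) (r : ℕ × ℕ → ℕ) (Y : Finset G),
        Par M R h l m → (∀ q, r q < R q.1) → δ ≤ m →
        4 * k * (2 * k * (R0 * b) + 4 * k) + 4 * k < B →
        ∀ W : Sw D K Y (ZZ γ M h l m r) n, W.W.NoWin Mp (M δ) (2 * h) B →
        ∃ a ∈ Arcs k n ×ˢ Arcs k n, ∃ U ∈ Φ (Nset (M δ) B (endsOf a.1 ∪ endsOf a.2)) b,
          ∃ σ ∈ Sc2 D (M δ) U Y (FF γ R m δ), Valid2 D (M δ) (2 * h) n σ ∧
            ∀ i, Eqn D (ZZ γ M h l m r) (σ i)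

-- deps: SPREAD BAD COARSE
def S_NOSW : Prop :=
  ∀ (G : Type) [Group G] (S : Finset G), 1 ∈ S → (∀ x ∈ S, x⁻¹ ∈ S) →
    Submonoid.closure (S : Set G) = ⊤ → ∀ (k K : ℕ) (D : Rels G k) (Y : Finset G),
    ∃ (z : ℕ → G) (n : ℕ), Loop (S : Set G) z n ∧ IsEmpty (Sw D K Y z n)

-- deps: NOSW
def S_TAIL : Prop :=
  ∀ (G : Type) [Group G] (S : Finset G), 1 ∈ S → (∀ x ∈ S, x⁻¹ ∈ S) →
    Submonoid.closure (S : Set G) = ⊤ → ∀ (k K : ℕ) (D : Rels G k) (Y : Finset G) (s : G),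
    ∃ (z : ℕ → G) (n : ℕ), Path (S : Set G) z n ∧ z n = s ∧ IsEmpty (Sw D K Y z n)

-- deps:
def S_ALG : Prop :=
  ∀ (V G : Type) [Finite V] [Group G] [Infinite G], (∀ g : G, IsOfFinOrder g) →
    ∀ (ω : List V) (H : Set (List V → List V)), (∀ h ∈ H, SwA.LHom h) →
    ∀ (D B : Set V) (e : V → G) (f : V → V),
    ∃ (N : Subgroup G) (Rel : (V → G × G) → Prop), N.FiniteIndex ∧
      (∀ j η, j ∈ B → Thin {x | Rel (Function.update η j (x, (η j).2))}) ∧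
      (∀ j η, j ∈ B → f j = j → Thin {x | Rel (Function.update η j ((η j).1, x))}) ∧
      (B ⊆ D → (∀ b ∈ B, f b ∈ B ∧ f (f b) = f b) →
        ∀ ψ1 ψ2, IsLoop H D B e f ψ1 → IsLoop H D B e f ψ2 → ∀ v : V → G, Adm ω H D v →
        (∀ a ∈ D, a ∉ B → v a = e a) → (∀ a ∈ B, f a ≠ a → v a = val e (ψ2 [a])) →
        ∀ u, Reach ω H u → (∀ a ∈ u, a ∈ D) → (∀ a ∈ B, u.count a = 1) →
        val v u ∈ N → ∀ η : V → G × G,
        (∀ a ∈ B, f a = a → ∃ α β, ψ1 [a] = α ++ a :: β ∧ η a = (val v α, (val v β)⁻¹)) →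
        (∀ a ∈ B, f a ≠ a → η a = (val e (ψ1 [a]), v a)) → Rel η)

-- deps: ALG
def S_SWB : Prop :=
  ∀ (A G : Type) [Group G] [Infinite G] [Nonempty A], (∀ g : G, IsOfFinOrder g) →
    ∀ (π : A → G) (S : Finset G), 1 ∈ S → (∀ g ∈ S, g⁻¹ ∈ S) →
    (SwA.EL fun w : List A => (w.map π).prod ≠ 1) →
    ∃ (k K : ℕ) (D : Rels G k) (Y : Finset G) (N : Subgroup G), N.FiniteIndex ∧
      ∀ (z : ℕ → G) (n : ℕ), Path (S : Set G) z n → z n ∈ N → z n ≠ 1 →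
      ∀ (W : ℕ → A) (ν : ℕ) (p : ℕ → G) (κ : ℕ → ℕ), p 0 = 1 → (∀ y, p (y + 1) = p y * π (W y)) →
        p ν = z n → (∀ y ≤ ν, (z (κ y))⁻¹ * p y ∈ S) →
        SwA.Marked (fun _ : A => (1 : Unit)) {1} (fun _ => 1) n W ν (fun _ => 1) κ →
        Nonempty (Sw D K Y z n)

-- deps: SWB TAIL
def S_MAIN : Prop :=
  ∀ (A G : Type) [Group G], (∀ g : G, IsOfFinOrder g) → ∀ (π : A → G) (a b : A),
    a ≠ b → π a * π b = 1 → (∀ x : A, ∃ x' : A, π x' = (π x)⁻¹) →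
    Submonoid.closure (Set.range π) = ⊤ → Ed.Sys {g | g ≠ 1} π → Finite G

end Pool.Agent.P.MP_f04817_lc.Co
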