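import Pool.Agent.P.MP_f04817_lc.Ed.TENC
import Pool.Agent.P.MP_f04817_lc.Ed.TPROC
import Pool.Agent.P.MP_f04817_lc.Ed.TZED
import Pool.Agent.P.MP_f04817_lc.Ed.TSUB
import Pool.Agent.P.MP_f04817_lc.Ed.TPER
import Pool.Agent.P.MP_f04817_lc.Ed.TCONV
import Pool.Agent.P.MP_f04817_lc.Ed.Shift

/-! A group with an EDT0L co-word problem is a torsion group (the proof of the hand-in `Periodic`
for the complement of the identity). -/

set_option autoImplicit false

namespace Pool.Agent.P.MP_f04817_lc.Co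

open Pool.Agent.P.MP_f04817_lc.Ed

theorem per (G : Type) [Group G] (X : Finset G) (hX : Subgroup.closure (X : Set G) = ⊤)
    (T : Set G) (_hT : T = {g | g ≠ 1})
    (hT : ∃ (V : Type) (_ : Finite V) (ι : X × Bool ↪ V) (ω : FreeMonoid V)
      (H : Finset (Monoid.End (FreeMonoid V))), ∀ w : FreeMonoid (X × Bool),
      FreeMonoid.lift (fun p : X × Bool => if p.2 = true then (p.1 : G) else (p.1 : G)⁻¹) w ∈ T ↔
        ∃ φ ∈ Submonoid.closure (H : Set (Monoid.End (FreeMonoid V))),
          φ ω = FreeMonoid.map ι w)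
    (g h : G) : ∃ δ : ℤ, 0 < δ ∧ ∀ n : ℤ, h * g ^ n ∈ T ↔ h * g ^ (n + δ) ∈ T := by
  classical
  set π : X × Bool → G := fun p => if p.2 = true then (p.1 : G) else (p.1 : G)⁻¹ with hπ
  rcases X.eq_empty_or_nonempty with rfl | ⟨x, hx⟩
  · rw [Finset.coe_empty, Subgroup.closure_empty] at hX
    have hg : g = 1 := Subgroup.mem_bot.1 (hX ▸ Subgroup.mem_top g)
    exact ⟨1, one_pos, fun n => by simp [hg]⟩
  have hP := p_PROC p_ENC (X × Bool) G T π (⟨x, hx⟩, true) (⟨x, hx⟩, false) (by simp)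
    (by simp [hπ]) (p_CONV _ G T π hT)
  let inv : Option (X × Bool) → Option (X × Bool) := Option.map fun p => (p.1, !p.2)
  have hinv : ∀ y, opt π (inv y) = (opt π y)⁻¹ := by
    rintro (_ | ⟨p, b⟩)
    · simp [inv, opt]
    · cases b <;> simp [inv, opt, hπ]
  have word : ∀ u : G, ∃ (l : ℕ) (y : ℕ → Option (X × Bool)), 0 < l ∧ Q (opt π) y l = u := by
    intro u
    have hu : u ∈ Subgroup.closure (X : Set G) := hX ▸ Subgroup.mem_top u
    have step : ∀ (v : G) (a : Option (X × Bool)),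
        (∃ (l : ℕ) (y : ℕ → Option (X × Bool)), 0 < l ∧ Q (opt π) y l = v) →
        ∃ (l : ℕ) (y : ℕ → Option (X × Bool)), 0 < l ∧ Q (opt π) y l = v * opt π a := by
      rintro v a ⟨l, y, -, rfl⟩
      refine ⟨l + 1, fun p => if p < l then y p else a, Nat.succ_pos _, ?_⟩
      rw [Q_succ, if_neg (lt_irrefl l), Q_congr (opt π) (y := y) fun p hp => if_pos hp]
    induction hu using Subgroup.closure_induction_right with
    | one => exact ⟨1, fun _ => none, one_pos, by simp [Q_succ, Q_zero, opt]⟩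
    | mul_right v _ a ha ih => simpa [opt, hπ] using step v (some (⟨a, ha⟩, true)) ih
    | mul_inv_cancel v _ a ha ih => simpa [opt, hπ] using step v (some (⟨a, ha⟩, false)) ih
  obtain ⟨m, y, -, rfl⟩ := word h
  obtain ⟨l, z, hl, rfl⟩ := word g
  have h1 := p_SUB _ G False _ (opt π) l
    (fun b o => if b = true then z o else inv (z (l - 1 - o))) hl (shift_proc True T _ m y hP)
  have h2 : (fun b : Bool => Q (opt π) (fun o => if b = true then z o else inv (z (l - 1 - o))) l) =
      fun b : Bool => Q (opt π) z l ^ sg b := by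
    funext b
    cases b
    · simpa [sg] using Q_inv (opt π) inv hinv z l
    · simp [sg]
  rw [h2] at h1
  exact p_PER p_ZED G _ _ h1

end Pool.Agent.P.MP_f04817_lc.Co
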