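import Pool.Agent.P.MP_f04817_lc.Co.Iface

/-! List lemmas on two stages of a derivation. -/

set_option autoImplicit false

namespace Pool.Agent.P.MP_f04817_lc.Co.SWB

open scoped Classical
open SwA

section Lists

variable {V : Type} {h : List V → List V} (hh : LHom h)
include hh

theorem mem_of_mem {u : List V} {a b : V} (ha : a ∈ u) (hb : b ∈ h [a]) : b ∈ h u := by
  obtain ⟨s, t, rfl⟩ := List.append_of_mem ha
  rw [hh.2, ← List.singleton_append, hh.2]
  simp [hb]

theorem count_hom (u : List V) (b : V) :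
    (h u).count b = (u.map fun a => (h [a]).count b).sum := by
  induction u with
  | nil => simp [hh.1]
  | cons v u ih =>
    rw [← List.singleton_append, hh.2, List.count_append, ih]
    simp

theorem count_one {u : List V} {a a' b : V} (h1 : (h u).count b = 1) (ha : a ∈ u)
    (hb : b ∈ h [a]) (ha' : a' ∈ u) : (h [a']).count b = if a = a' then 1 else 0 := by
  have c1 : 0 < (h [a]).count b := List.count_pos_iff.2 hb
  rw [count_hom hh, ((List.perm_cons_erase ha).map _).sum_eq, List.map_cons, List.sum_cons] at h1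
  split_ifs with e
  · rw [← e]; omega
  · have m : a' ∈ u.erase a := (List.mem_erase_of_ne fun c => e c.symm).2 ha'
    have := List.single_le_sum (l := (u.erase a).map fun a => (h [a]).count b)
      (fun _ _ => Nat.zero_le _) _ (List.mem_map_of_mem m)
    omega

theorem split {u α β : List V} {a b : V} (h1 : (h u).count b = 1) (ha : a ∈ u)
    (e : h [a] = α ++ b :: β) :
    (h u).take ((h u).idxOf b) = h (u.take (u.idxOf a)) ++ α ∧
      (h u).take ((h u).idxOf b + 1) ++ β = h (u.take (u.idxOf a + 1)) := by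
  have hi : u.idxOf a < u.length := List.idxOf_lt_length_of_mem ha
  have e0 : u.take (u.idxOf a + 1) = u.take (u.idxOf a) ++ [a] := by
    rw [List.take_succ_eq_append_getElem hi, List.getElem_idxOf]
  have e1 : h u = (h (u.take (u.idxOf a)) ++ α) ++ b :: (β ++ h (u.drop (u.idxOf a + 1))) := by
    conv_lhs => rw [← List.take_append_drop (u.idxOf a + 1) u, hh.2, e0, hh.2, e]
    simp
  have nb : b ∉ h (u.take (u.idxOf a)) ++ α := fun c => by
    have := List.count_pos_iff.2 c
    rw [e1, List.count_append, List.count_cons_self] at h1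
    omega
  have e2 : (h u).idxOf b = (h (u.take (u.idxOf a)) ++ α).length := by
    rw [e1, List.idxOf_append_of_notMem nb, List.idxOf_cons_self, add_zero]
  rw [e2, e0, hh.2, e]
  constructor
  · conv_lhs => rw [e1]
    exact List.take_left
  · conv_lhs => rw [e1]
    rw [List.take_append, List.take_of_length_le (by omega)]
    simp

end Lists

/-- the value of the yield of a letter -/
def vl {V G : Type} [Group G] (π' : V → G) (ψ : List V → List V) (a : V) : G :=
  ((ψ [a]).map π').prod

theorem val_vl {V G : Type} [Group G] (π' : V → G) {ψ : List V → List V} (hψ : LHom ψ)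
    (u : List V) : val (vl π' ψ) u = ((ψ u).map π').prod := (prod_hom hψ u π').symm

theorem val_append {V G : Type} [Group G] (v : V → G) (a b : List V) :
    val v (a ++ b) = val v a * val v b := by simp [val]

theorem val_congr {V G : Type} [Group G] {v w : V → G} {u : List V} (h : ∀ a ∈ u, v a = w a) :
    val v u = val w u := by
  unfold val
  rw [List.map_congr_left h]

/-- the left end of the arc of a letter -/
noncomputable def lft {V : Type} (κ : ℕ → ℕ) (ψ : List V → List V) (u : List V) (a : V) : ℕ :=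
  if Big κ ψ u a then κ (cut ψ u (u.idxOf a)) + 1 else 0

/-- the right end of the arc of a letter -/
noncomputable def rgt {V : Type} (κ : ℕ → ℕ) (ψ : List V → List V) (u : List V) (a : V) : ℕ :=
  if Big κ ψ u a then κ (cut ψ u (u.idxOf a + 1)) else 0

section Stage

variable {G A V : Type} [Group G] {π : A → G} {n : ℕ} {W : ℕ → A} {ν : ℕ} {p : ℕ → G}
  {κ : ℕ → ℕ}
  (hM : Marked (fun _ : A => (1 : Unit)) {1} (fun _ => 1) n W ν (fun _ => 1) κ) {ι : A → V}
  (hι : Function.Injective ι) {ψ : List V → List V} (hψ : LHom ψ) {u : List V}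
  (hu : ψ u = (List.range ν).map fun y => ι (W y))

include hψ hu in
theorem pre_val (p0 : p 0 = 1) (ps : ∀ y, p (y + 1) = p y * π (W y)) {π' : V → G}
    (hπ : ∀ a, π' (ι a) = π a) (i : ℕ) : val (vl π' ψ) (u.take i) = p (cut ψ u i) := by
  have hp : ∀ m, (((List.range m).map fun y => ι (W y)).map π').prod = p m := fun m => by
    induction m with
    | zero => simp [p0]
    | succ m ih =>
      rw [List.range_succ, List.map_append, List.map_append, List.prod_append, ih, ps]
      simp [hπ]
  have e : ψ u = ψ (u.take i) ++ ψ (u.drop i) := by rw [← hψ.2, List.take_append_drop]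
  have e2 : ψ (u.take i) = (ψ u).take (cut ψ u i) := by rw [e, cut, List.take_left]
  rw [val_vl π' hψ, e2, hu, ← List.map_take, List.take_range,
    min_eq_left (cut_le' hψ hu i), hp]

include hM hι hψ hu in
theorem big_iff {a : V} : Big κ ψ u a ↔
    a ∈ u ∧ κ (cut ψ u (u.idxOf a)) + 2 ≤ κ (cut ψ u (u.idxOf a + 1)) := by
  constructor
  · rintro ⟨i, hi, e, hb⟩
    have ha : a ∈ u := e ▸ List.getElem_mem hi
    have := idx_uniq hM hι hψ hu hi (List.idxOf_lt_length_of_mem ha)
      (by rw [e, List.getElem_idxOf]) hb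
    exact ⟨ha, this ▸ hb⟩
  · rintro ⟨ha, hb⟩
    exact ⟨_, List.idxOf_lt_length_of_mem ha, List.getElem_idxOf _, hb⟩

include hM hι hψ hu in
theorem big_count {a : V} (hb : Big κ ψ u a) : u.count a = 1 := by
  have h1 := big_pairwise hM hι hψ hu
  have ha := ((big_iff hM hι hψ hu).1 hb).1
  generalize Big κ ψ u = P at h1 hb
  clear hu
  induction u with
  | nil => simp at ha
  | cons c u ih =>
    rw [List.pairwise_cons] at h1
    by_cases e : c = a
    · subst e
      rw [List.count_cons_self, List.count_eq_zero.2 fun m => h1.1 c m hb rfl]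
    · rw [List.count_cons_of_ne e]
      exact ih ((List.mem_cons.1 ha).resolve_left fun c => e c.symm) h1.2

include hM hι hψ hu in
theorem arc_le (a : V) : lft κ ψ u a ≤ rgt κ ψ u a ∧ rgt κ ψ u a ≤ n := by
  unfold lft rgt
  split_ifs with hb
  · have := ((big_iff hM hι hψ hu).1 hb).2
    exact ⟨by omega, hM.ke ▸ hM.mono (cut_le' hψ hu _)⟩
  · exact ⟨le_rfl, Nat.zero_le _⟩

theorem big_of_lt {a : V} (h : lft κ ψ u a < rgt κ ψ u a) : Big κ ψ u a := by
  by_contra hb
  simp [lft, rgt, hb] at h

include hM hι hψ hu in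
theorem arc_disj {a b : V} (hab : a ≠ b) (ha : lft κ ψ u a < rgt κ ψ u a)
    (hb : lft κ ψ u b < rgt κ ψ u b) :
    rgt κ ψ u a < lft κ ψ u b ∨ rgt κ ψ u b < lft κ ψ u a := by
  have a1 := big_of_lt ha
  have b1 := big_of_lt hb
  have a2 := ((big_iff hM hι hψ hu).1 a1).1
  have ne : u.idxOf a ≠ u.idxOf b := fun c => hab ((List.idxOf_inj a2).1 c)
  simp only [lft, rgt, if_pos a1, if_pos b1]
  rcases lt_or_gt_of_ne ne with c | c
  · have := hM.mono (cut_mono hψ u (show _ + 1 ≤ _ from c)); omega
  · have := hM.mono (cut_mono hψ u (show _ + 1 ≤ _ from c)); omega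

include hM hι hψ hu in
theorem arc_cov (e : ℕ) : (∃ a, lft κ ψ u a ≤ e ∧ e < rgt κ ψ u a) ↔ CovU κ ψ u e := by
  constructor
  · rintro ⟨a, h1, h2⟩
    have a1 := big_of_lt (h1.trans_lt h2)
    simp only [lft, rgt, if_pos a1] at h1 h2
    exact ⟨_, List.idxOf_lt_length_of_mem ((big_iff hM hι hψ hu).1 a1).1, by omega, h2⟩
  · rintro ⟨i, hi, h1, h2⟩
    have hb : κ (cut ψ u i) + 2 ≤ κ (cut ψ u (i + 1)) := by omega
    have a1 : Big κ ψ u u[i] := ⟨i, hi, rfl, hb⟩
    have := idx_uniq hM hι hψ hu hi (List.idxOf_lt_length_of_mem (List.getElem_mem hi))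
      (by rw [List.getElem_idxOf]) hb
    refine ⟨u[i], ?_⟩
    simp only [lft, rgt, if_pos a1, ← this]
    omega

end Stage

section Two

variable {A V : Type} {n : ℕ} {W : ℕ → A} {ν : ℕ} {κ : ℕ → ℕ}
  (hM : Marked (fun _ : A => (1 : Unit)) {1} (fun _ => 1) n W ν (fun _ => 1) κ) {ι : A → V}
  (hι : Function.Injective ι) {ψ h : List V → List V} (hψ : LHom ψ) (hh : LHom h) {u : List V}
  (hu : ψ (h u) = (List.range ν).map fun y => ι (W y))

include hM hι hψ hh hu in
theorem parent {a b : V} (hb : Big κ ψ (h u) b) (ha : a ∈ u) (hab : b ∈ h [a]) :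
    Big κ (fun v => ψ (h v)) u a ∧ lft κ (fun v => ψ (h v)) u a ≤ lft κ ψ (h u) b ∧
      rgt κ ψ (h u) b ≤ rgt κ (fun v => ψ (h v)) u a := by
  obtain ⟨α, β, e⟩ := List.append_of_mem hab
  obtain ⟨s1, s2⟩ := split hh (big_count hM hι hψ hu hb) ha e
  have c1 : cut (fun v => ψ (h v)) u (u.idxOf a) ≤ cut ψ (h u) ((h u).idxOf b) := by
    simp only [cut]
    rw [s1, hψ.2, List.length_append]
    omega
  have c2 : cut ψ (h u) ((h u).idxOf b + 1) ≤ cut (fun v => ψ (h v)) u (u.idxOf a + 1) := by
    simp only [cut]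
    rw [← s2, hψ.2, List.length_append]
    omega
  have d1 := hM.mono c1
  have d2 := hM.mono c2
  have d3 := ((big_iff hM hι hψ hu).1 hb).2
  have a1 : Big κ (fun v => ψ (h v)) u a :=
    ⟨_, List.idxOf_lt_length_of_mem ha, List.getElem_idxOf _, by omega⟩
  refine ⟨a1, ?_⟩
  simp only [lft, rgt, if_pos a1, if_pos hb]
  omega

end Two

end Pool.Agent.P.MP_f04817_lc.Co.SWB
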