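import Pool.Agent.P.MP_f04817_lc.Co.Iface

/-! From a sweep with relations to a chain of coarse equations. -/

set_option autoImplicit false

namespace Pool.Agent.P.MP_f04817_lc.Co

open scoped Classical

namespace COARSE

/-- the index of the step `s` of the block `i` -/
def ix {R b : ℕ} (i : Fin b) (s : Fin R) : Fin (R * b) :=
  ⟨R * i + s, by
    have h1 : R * (i + 1) ≤ R * b := Nat.mul_le_mul_left _ i.2
    have h2 := s.2
    rw [mul_add, mul_one] at h1
    omega⟩

theorem ix_lt {R b : ℕ} {i i' : Fin b} (h : i < i') (s s' : Fin R) : ix i s < ix i' s' := by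
  have h1 : R * (i + 1) ≤ R * i' := Nat.mul_le_mul_left _ h
  have h2 := s.2
  rw [mul_add, mul_one] at h1
  show R * i + s < R * i' + s'
  omega

theorem ix_lt' {R b : ℕ} (i : Fin b) {s s' : Fin R} (h : s < s') : ix i s < ix i s' := by
  have h1 : (s : ℕ) < s' := h
  show R * i + s < R * i + s'
  omega

variable {G : Type} [Group G]

/-- the coarse entry of the arc from `l` to `r` with corrections `y` -/
noncomputable def co (z : ℕ → G) (la : ℕ → ℕ) (l r : ℕ) (y : G × G) : Ent G :=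
  (if la l = la r then 0 else la l, if la l = la r then 0 else la r,
    (z (la l))⁻¹ * z l * y.1, (z (la r))⁻¹ * z r * y.2)

/-- the common left factor of the two values of a coarse entry -/
noncomputable def fac (z : ℕ → G) (la : ℕ → ℕ) (l r : ℕ) : G :=
  if la l = la r then z 0 * (z (la l))⁻¹ else 1

theorem ze_co (z : ℕ → G) (la : ℕ → ℕ) (l r : ℕ) (y : G × G) :
    ze z (co z la l r y) = (fac z la l r * (z l * y.1), fac z la l r * (z r * y.2)) := by
  unfold ze co fac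
  by_cases e : la l = la r
  · simp only [if_pos e]
    rw [e]
    refine Prod.ext ?_ ?_
    · simp only [mul_assoc]
    · simp only [mul_assoc]
  · simp only [if_neg e]
    refine Prod.ext ?_ ?_
    · simp only [mul_assoc, mul_inv_cancel_left, one_mul]
    · simp only [mul_assoc, mul_inv_cancel_left, one_mul]

theorem eta_mul (p : Prop) (g g' a b c d : G) (h : p → g = g') :
    eta p (g * a, g * b) (g' * c, g' * d) = eta p (a, b) (c, d) := by
  unfold eta
  by_cases hp : p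
  · simp only [if_pos hp]
    rw [h hp]
    simp only [mul_inv_rev, mul_assoc, inv_mul_cancel_left]
  · simp only [if_neg hp]
    simp only [mul_inv_rev, mul_assoc, inv_mul_cancel_left]

theorem fac_eq (z : ℕ → G) {la : ℕ → ℕ} (hm : Monotone la) {l r l' r' : ℕ}
    (e : la l ≠ la r ↔ la l' ≠ la r') (h1 : l' ≤ l) (h2 : l ≤ r) (h3 : r ≤ r') :
    fac z la l' r' = fac z la l r := by
  unfold fac
  by_cases c : la l' = la r'
  · have c' : la l = la r := by
      by_contra hc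
      exact e.mp hc c
    have a1 := hm h1
    have a2 := hm h2
    have a3 := hm h3
    rw [if_pos c, if_pos c', show la l' = la l by omega]
  · rw [if_neg c, if_neg (e.mpr c)]

theorem fr2_co (z : ℕ → G) {M L u l r : ℕ} (y : G × G)
    (h : lam M L l = lam M L r ∨ (Free M L u (lam M L l) ∧ Free M L u (lam M L r))) :
    Fr2 M L u (co z (lam M L) l r y) := by
  unfold Fr2 co
  by_cases e : lam M L l = lam M L r
  · simp only [if_pos e]
    exact ⟨Or.inl (Nat.zero_le _), Or.inl (Nat.zero_le _)⟩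
  · simp only [if_neg e]
    exact h.resolve_left e

theorem co_mem {z : ℕ → G} {la : ℕ → ℕ} {l r : ℕ} {y : G × G} {U : Finset ℕ} {Y F : Finset G}
    (hU : la l ≠ la r → la l ∈ U ∧ la r ∈ U) (hF : ∀ x, (z (la x))⁻¹ * z x ∈ F)
    (hy : y.1 ∈ Y ∧ y.2 ∈ Y) : co z la l r y ∈ En2 U Y F := by
  unfold En2 co
  refine Finset.mem_product.mpr ⟨?_, Finset.mem_product.mpr ⟨?_, Finset.mem_product.mpr
    ⟨Finset.mem_image₂_of_mem (hF l) hy.1, Finset.mem_image₂_of_mem (hF r) hy.2⟩⟩⟩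
  · by_cases e : la l = la r
    · simp only [if_pos e]
      exact Finset.mem_insert_self _ _
    · simp only [if_neg e]
      exact Finset.mem_insert_of_mem (hU e).1
  · by_cases e : la l = la r
    · simp only [if_pos e]
      exact Finset.mem_insert_self _ _
    · simp only [if_neg e]
      exact Finset.mem_insert_of_mem (hU e).2

theorem nf {M L : ℕ} (hM : 0 < M) (hL : 0 < L) (u : ℕ) : ¬ Free M L u ((u + 1) * M) := by
  unfold Free
  rw [add_mul]
  omega

/-- a monochromatic triple in each block -/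
theorem triple {C E : Type} {R b : ℕ}
    (hR : ∀ col : ℕ → ℕ → C × E,
      ∃ x y w, x < y ∧ y < w ∧ w < R ∧ col x y = col y w ∧ col x w = col y w)
    (c : ℕ → ℕ → C) (e : ℕ → E) (θ : Fin (R * b) → ℕ) (i : Fin b) :
    ∃ x y w : Fin R, x < y ∧ y < w ∧ c (θ (ix i x)) (θ (ix i y)) = c (θ (ix i y)) (θ (ix i w)) ∧
      c (θ (ix i x)) (θ (ix i w)) = c (θ (ix i y)) (θ (ix i w)) ∧
      e (θ (ix i y)) = e (θ (ix i w)) := by
  let th : ℕ → ℕ := fun x => if h : x < R then θ (ix i ⟨x, h⟩) else 0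
  obtain ⟨x, y, w, xy, yw, hw, e1, e2⟩ := hR fun x y => (c (th x) (th y), e (th y))
  have hy : y < R := yw.trans hw
  have hx : x < R := xy.trans hy
  have tx : th x = θ (ix i ⟨x, hx⟩) := dif_pos hx
  have ty : th y = θ (ix i ⟨y, hy⟩) := dif_pos hy
  have tw : th w = θ (ix i ⟨w, hw⟩) := dif_pos hw
  refine ⟨⟨x, hx⟩, ⟨y, hy⟩, ⟨w, hw⟩, xy, yw, ?_, ?_, ?_⟩
  · rw [← tx, ← ty, ← tw]
    exact congrArg Prod.fst e1
  · rw [← tx, ← ty, ← tw]
    exact congrArg Prod.fst e2
  · rw [← ty, ← tw]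
    exact congrArg Prod.snd e1

end COARSE

open COARSE

theorem p_COARSE (h1 : S_TV) (h2 : S_RAM) (h3 : S_SCEN) (h4 : S_NEST) : S_COARSE := by
  intro G _ k D
  haveI := D.fin
  obtain ⟨R0, hR0⟩ := h2 (D.C × Set (Fin k))
  choose F hF1 hF2 hF3 using fun N β => h1 N k β
  refine ⟨R0, fun N b => (F N (R0 * b)).image fun A i =>
    Finset.univ.biUnion fun s : Fin R0 => A (ix i s),
    fun N b => Finset.card_image_le.trans (hF1 N _), fun N b U hU i => ?_, ?_⟩
  · obtain ⟨A, hA, rfl⟩ := Finset.mem_image.mp hU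
    refine (Finset.card_biUnion_le_card_mul _ _ (2 * k) fun s _ => hF2 _ _ A hA _).trans ?_
    rw [Finset.card_univ, Fintype.card_fin, mul_comm]
  intro M R h l m δ n K b B Mp γ r Y P hr hδ hB W hW
  have h0 := P.h0
  have hM := P.M0 δ
  have hL : 0 < 2 * h := by omega
  obtain ⟨τ0, τ1, θ, p, t0, t1, hs, hθ, loc, det, ind⟩ :=
    h3 k K n Mp (M δ) (2 * h) B (R0 * b) W.W hL (P.hM δ) hB hW
  have mono : Monotone (lam (M δ) (2 * h)) := h4.1 _ _ hL (P.hM δ)
  have arc : ∀ τ ≤ W.W.T, (fun i => ((W.W.st τ i).1, (W.W.st τ i).2.1)) ∈ Arcs k n := fun τ hτ =>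
    Fintype.mem_piFinset.mpr fun i => by
      have := W.W.le τ hτ i
      exact Finset.mem_product.mpr ⟨Finset.mem_range.mpr (by simp only; omega),
        Finset.mem_range.mpr (by simp only; omega)⟩
  obtain ⟨A, hA, hA'⟩ := hF3 (Nset (M δ) B (W.W.ends τ0 ∪ W.W.ends τ1)) (R0 * b)
    (fun i j => lam (M δ) (2 * h) (W.W.st (θ i) j).1)
    (fun i j => lam (M δ) (2 * h) (W.W.st (θ i) j).2.1)
    (fun i j hij => loc i j (ne_of_lt hij))
    (fun i j j' hj a1 a2 =>
      (W.W.disj _ (hθ i).1 j j' hj (mono.reflect_lt a1) (mono.reflect_lt a2)).imp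
        (fun c => mono c.le) fun c => mono c.le)
    (fun i i' hii j a1 => by
      obtain ⟨j', c1, c2⟩ := h4.2 k K n W.W (θ i) (θ i') (hs.monotone hii) (hθ i').1 j
        (mono.reflect_lt a1)
      exact ⟨j', mono c1, mono c2⟩)
  choose x y w xy yw c1 c2 c3 using triple hR0 W.col
    (fun t => {j | lam (M δ) (2 * h) (W.W.st t j).1 ≠ lam (M δ) (2 * h) (W.W.st t j).2.1}) θ
  have tri := fun i : Fin b => W.tri _ _ _ (hs (ix_lt' i (xy i))) (hs (ix_lt' i (yw i)))
    (hθ (ix i (w i))).1 (c1 i) (c2 i)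
  have inU : ∀ (i : Fin b) (s : Fin R0) (j : Fin k),
      lam (M δ) (2 * h) (W.W.st (θ (ix i s)) j).1 ≠ lam (M δ) (2 * h) (W.W.st (θ (ix i s)) j).2.1 →
      lam (M δ) (2 * h) (W.W.st (θ (ix i s)) j).1 ∈
          (Finset.univ.biUnion fun s : Fin R0 => A (ix i s)) ∧
        lam (M δ) (2 * h) (W.W.st (θ (ix i s)) j).2.1 ∈
          (Finset.univ.biUnion fun s : Fin R0 => A (ix i s)) := fun i s j e => by
    have a := hA' (ix i s) j (lt_of_le_of_ne (mono (W.W.le _ (hθ (ix i s)).1 j).1) e)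
    exact ⟨Finset.mem_biUnion.mpr ⟨s, Finset.mem_univ _, a.1⟩,
      Finset.mem_biUnion.mpr ⟨s, Finset.mem_univ _, a.2⟩⟩
  let ce : Fin (R0 * b) → Fin k → Ent G := fun s j =>
    co (ZZ γ M h l m r) (lam (M δ) (2 * h)) (W.W.st (θ s) j).1 (W.W.st (θ s) j).2.1 (W.y (θ s) j)
  have off : ∀ s u j, Sweep.Off (M δ) (2 * h) u (W.W.st (θ s) j) →
      Fr2 (M δ) (2 * h) u (ce s j) := fun s u j hq => fr2_co _ _ hq
  have mem : ∀ (i : Fin b) (s : Fin R0) (j : Fin k), ce (ix i s) j ∈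
      En2 (Finset.univ.biUnion fun s : Fin R0 => A (ix i s)) Y (FF γ R m δ) := fun i s j =>
    co_mem (inU i s j) (fun v => (P.lam_mem hr hδ v).2) (W.hy _ j)
  refine ⟨(_, _), Finset.mem_product.mpr ⟨arc τ0 t0, arc τ1 t1⟩, _,
    Finset.mem_image_of_mem _ hA,
    fun i => (p (ix i (w i)), W.col (θ (ix i (y i))) (θ (ix i (w i))),
      fun j => (ce (ix i (w i)) j, ce (ix i (y i)) j)),
    Fintype.mem_piFinset.mpr fun i => Finset.mem_product.mpr ⟨?_, Finset.mem_product.mpr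
      ⟨@Finset.mem_univ _ D.fin _, Fintype.mem_piFinset.mpr fun j =>
        Finset.mem_product.mpr ⟨mem i _ j, mem i _ j⟩⟩⟩,
    ⟨fun i => ⟨(hθ _).2.1, (hθ _).2.2, fun j => off _ _ _ (ind _ _ (ix_lt' i (yw i)) j), ?_⟩,
      fun i i' hii j => ⟨off _ _ _ (ind _ _ (ix_lt hii _ _) j),
        off _ _ _ (ind _ _ (ix_lt hii _ _) j)⟩⟩, fun i => ?_⟩
  · obtain ⟨j, hj, _⟩ := det (ix i (w i))
    refine Finset.mem_image.mpr ⟨(p (ix i (w i)) + 1) * M δ, ?_,
      by rw [Nat.mul_div_cancel _ hM]; rfl⟩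
    rcases hj with ⟨a, c⟩ | ⟨a, c⟩
    · exact a ▸ (inU i _ j fun e => nf hM hL _ (by rwa [← e, a] at c)).1
    · exact c ▸ (inU i _ j fun e => nf hM hL _ (by rwa [e, c] at a)).2
  · obtain ⟨j, hj, ho⟩ := det (ix i (w i))
    have e : ¬ lam (M δ) (2 * h) (W.W.st (θ (ix i (w i))) j).1 =
        lam (M δ) (2 * h) (W.W.st (θ (ix i (w i))) j).2.1 := by
      rcases hj with ⟨a, c⟩ | ⟨a, c⟩
      · exact fun e => nf hM hL _ (by rwa [← e, a] at c)
      · exact fun e => nf hM hL _ (by rwa [e, c] at a)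
    refine ⟨j, (tri i).2.1 j (lt_of_le_of_ne (W.W.le _ (hθ _).1 j).1 fun c => e (by rw [c])), ?_,
      fun j' hj' => off _ _ _ (ho j' hj')⟩
    simp only [ce, co, if_neg e]
    exact hj
  · have e := (tri i).1
    unfold Eqn
    convert e using 2 with j
    simp only [ce, ze_co]
    refine eta_mul _ _ _ _ _ _ _ fun hp => ?_
    have a := (tri i).2.2 j hp
    exact fac_eq _ mono (Set.ext_iff.mp (c3 i) j) a.1 (W.W.le _ (hθ _).1 j).1 a.2

end Pool.Agent.P.MP_f04817_lc.Co
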