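import Pool.Agent.P.MP_f04817_lc.Co.Iface

/-! A finite family of group elements that rarely meets thin sets. -/

set_option autoImplicit false

namespace Pool.Agent.P.MP_f04817_lc.Co

open scoped Classical

namespace WALK

open Finset
open scoped Pointwise

lemma bern (r j : ℕ) : r ^ j * (r + j) ≤ (r + 1) ^ j * r := by
  induction j with
  | zero => simp
  | succ j ih =>
    have h := Nat.mul_le_mul_left (r + 1) ih
    rw [pow_succ, pow_succ]
    nlinarith [Nat.zero_le (r ^ j * j)]

lemma grow {G Ω : Type} [Group G] [MulAction G Ω] [MulAction.IsPretransitive G Ω] [Infinite Ω]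
    {S : Finset G} (h1 : 1 ∈ S) (hS : Submonoid.closure (S : Set G) = ⊤) (ω : Ω) (m : ℕ) :
    m + 1 ≤ ((S ^ m).image fun g => g • ω).card := by
  induction m with
  | zero => simp
  | succ m ih =>
    have h2 : ((S ^ m).image fun g => g • ω) ⊆ (S ^ (m + 1)).image fun g => g • ω :=
      image_subset_image (Finset.pow_subset_pow_right h1 m.le_succ)
    refine lt_of_le_of_lt ih (card_lt_card (ssubset_of_subset_of_ne h2 fun e => ?_))
    have h3 : ∀ g : G, ∀ x ∈ (S ^ m).image fun g => g • ω,
        g • x ∈ (S ^ m).image fun g => g • ω := fun g => by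
      have hg : g ∈ Submonoid.closure (S : Set G) := hS ▸ Submonoid.mem_top g
      induction hg using Submonoid.closure_induction with
      | mem s hs =>
        intro x hx
        obtain ⟨y, hy, rfl⟩ := mem_image.1 hx
        rw [e, pow_succ']
        exact mem_image.2 ⟨s * y, mul_mem_mul hs hy, mul_smul _ _ _⟩
      | one => exact fun x hx => by rwa [one_smul]
      | mul a b _ _ ha hb => exact fun x hx => by rw [mul_smul]; exact ha _ (hb x hx)
    obtain ⟨x, hx⟩ := card_pos.1 (lt_of_lt_of_le m.succ_pos ih)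
    obtain ⟨y, hy⟩ := Infinite.exists_notMem_finset ((S ^ m).image fun g => g • ω)
    obtain ⟨g, rfl⟩ := MulAction.exists_smul_eq G x y
    exact hy (h3 g x hx)

lemma walk {G : Type} [Group G] {S : Finset G} (h1 : 1 ∈ S)
    (hS : Submonoid.closure (S : Set G) = ⊤) (m r : ℕ) (hr : (S ^ m).card = r + 1) (j : ℕ) :
    ∃ (ι : Type) (_ : Fintype ι) (g : ι → G), Fintype.card ι = (r + 1) ^ j ∧
      ∀ (Ω : Type) [MulAction G Ω] [MulAction.IsPretransitive G Ω] [Infinite Ω] (τ ω : Ω),
        m * (univ.filter fun i => g i • ω = τ).card ≤ (r + 1) ^ j + m * r ^ j := by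
  induction j with
  | zero =>
    refine ⟨Unit, inferInstance, fun _ => 1, by simp, fun Ω _ _ _ τ ω => ?_⟩
    refine (Nat.mul_le_mul_left m (card_filter_le _ _)).trans ?_
    rw [card_univ, Fintype.card_unit, pow_zero, pow_zero]
    omega
  | succ j ih =>
    obtain ⟨ι, _, g, h2, h3⟩ := ih
    refine ⟨ι × ↥(S ^ m), inferInstance, fun p => g p.1 * p.2, by
      rw [Fintype.card_prod, h2, Fintype.card_coe, hr, pow_succ], fun Ω _ _ _ τ ω => ?_⟩
    have a1 : (univ.filter fun p : ι × ↥(S ^ m) => (g p.1 * p.2) • ω = τ).card =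
        ∑ u ∈ S ^ m, (univ.filter fun i => g i • u • ω = τ).card := by
      rw [← sum_coe_sort, card_filter, Fintype.sum_prod_type_right]
      exact sum_congr rfl fun u _ => by simp only [card_filter, mul_smul]
    have a2 : ∑ x ∈ (S ^ m).image fun u => u • ω, (univ.filter fun i => g i • x = τ).card ≤
        (r + 1) ^ j := by
      rw [← h2, ← card_biUnion fun x _ y _ e => disjoint_left.2 fun i hi hi' => e
        (MulAction.injective (g i) ((mem_filter.1 hi).2.trans (mem_filter.1 hi').2.symm))]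
      exact card_le_univ _
    have a3 := grow h1 hS ω m
    obtain ⟨x, hx, a4⟩ := exists_min_image ((S ^ m).image fun u => u • ω)
      (fun x => (univ.filter fun i => g i • x = τ).card) (card_pos.1 (by omega))
    have a5 := (card_nsmul_le_sum _ _ _ a4).trans a2
    obtain ⟨u, hu, rfl⟩ := mem_image.1 hx
    have a6 := sum_le_card_nsmul ((S ^ m).erase u)
      (fun u => m * (univ.filter fun i => g i • u • ω = τ).card) _ fun v _ => h3 Ω τ (v • ω)
    have a7 := Nat.mul_le_mul_right (univ.filter fun i => g i • u • ω = τ).card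
      ((Nat.le_succ m).trans a3)
    rw [card_erase_of_mem hu, hr, Nat.add_sub_cancel, ← mul_sum] at a6
    rw [smul_eq_mul] at a5 a6
    rw [a1, ← add_sum_erase _ _ hu, pow_succ, pow_succ]
    linarith

end WALK

theorem p_WALK : S_WALK := by
  intro G _ S h1 hS Q
  obtain ⟨r, hr⟩ : ∃ r, (open Pointwise in S ^ (2 * Q)).card = r + 1 :=
    Nat.exists_eq_succ_of_ne_zero (Finset.card_pos.2 ⟨1, Finset.one_mem_pow h1⟩).ne'
  obtain ⟨ι, _, g, h2, h3⟩ := WALK.walk h1 hS (2 * Q) r hr (2 * Q * r + 1)
  refine ⟨ι, inferInstance, Fintype.card_pos_iff.1 (h2 ▸ Nat.pow_pos r.succ_pos), g, ?_⟩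
  rintro X ⟨K, a, b, hK, hX⟩
  have := Subgroup.index_eq_zero_iff_infinite.1 hK
  have a1 : 2 * Q * (Finset.univ.filter fun i => g i ∈ X).card ≤ _ :=
    le_trans (Nat.mul_le_mul_left _ (Finset.card_le_card fun i hi => by
      simp only [Finset.mem_filter, Finset.mem_univ, true_and] at hi ⊢
      rw [MulAction.Quotient.smul_coe, eq_comm, QuotientGroup.eq, inv_inv, smul_eq_mul,
        ← mul_assoc]
      exact hX _ hi)) (h3 (G ⧸ K) (a⁻¹ : G) (b : G))
  have a3 : 2 * Q * r ^ (2 * Q * r + 1) ≤ (r + 1) ^ (2 * Q * r + 1) := by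
    rcases Nat.eq_zero_or_pos r with rfl | h0
    · simp
    refine Nat.le_of_mul_le_mul_right (le_trans ?_ (WALK.bern r _)) h0
    rw [mul_right_comm, mul_comm]
    exact Nat.mul_le_mul_left _ (by omega)
  rw [h2]
  linarith

end Pool.Agent.P.MP_f04817_lc.Co
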